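import Pool.Agent.Helper51K9.BK.Lin3

/-!
# Bases of the invariants and the determinant
-/

set_option autoImplicit false
set_option linter.unusedSectionVars false

namespace Pool.Agent.Helper51K9.BK

open Matrix TensorProduct Module

section

variable {Γ : Type} [Group Γ] {E' : Type} [Field E'] [Algebra ℚ E'] {V W : Type} [AddCommGroup V]
  [Module ℚ V] [AddCommGroup W] [Module ℚ W] (a : Γ →* Module.End ℚ V) (a' : Γ →* Module.End ℚ W)
  (b : V →ₗ[ℚ] W →ₗ[ℚ] ℝ) {r r' : Type} [Fintype r] [DecidableEq r] [Fintype r'] [DecidableEq r']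
  {ρ : Γ →* Matrix r r E'} {ρ' : Γ →* Matrix r' r' E'}

theorem cast_basis {ρ₁ ρ₂ : Γ →* Matrix r r E'} (h : ρ₁ = ρ₂) {ι : Type}
    (u : Basis ι E' (invariants a ρ₂)) : ∃ u' : Basis ι E' (invariants a ρ₁), ∀ i,
      (u' i : r → E' ⊗[ℚ] V) = u i := by
  subst h
  exact ⟨u, fun _ => rfl⟩

theorem sum_basis {ι ι' : Type} (v : Basis ι E' (invariants a ρ))
    (v' : Basis ι' E' (invariants a ρ')) :
    ∃ v'' : Basis (ι ⊕ ι') E' (invariants a (TI.dsum ρ ρ')),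
      (∀ i, (v'' (Sum.inl i) : r ⊕ r' → E' ⊗[ℚ] V) = Sum.elim (v i : r → E' ⊗[ℚ] V) 0) ∧
      ∀ i, (v'' (Sum.inr i) : r ⊕ r' → E' ⊗[ℚ] V) = Sum.elim (0 : r → E' ⊗[ℚ] V) (v' i : r' → E' ⊗[ℚ] V) := by
  refine ⟨(v.prod v').map (sumInv a), fun i => ?_, fun i => ?_⟩
  · rw [Basis.map_apply]
    have h1 : (v.prod v') (Sum.inl i) = (v i, 0) := by
      apply Prod.ext
      · exact Basis.prod_apply_inl_fst v v' i
      · exact Basis.prod_apply_inl_snd v v' i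
    rw [h1]
    rfl
  · rw [Basis.map_apply]
    have h1 : (v.prod v') (Sum.inr i) = (0, v' i) := by
      apply Prod.ext
      · exact Basis.prod_apply_inr_fst v v' i
      · exact Basis.prod_apply_inr_snd v v' i
    rw [h1]
    rfl

theorem sum_basis' {ι ι' : Type} (v : Basis ι E' (invariants a (contragredient ρ)))
    (v' : Basis ι' E' (invariants a (contragredient ρ'))) :
    ∃ v'' : Basis (ι ⊕ ι') E' (invariants a (contragredient (TI.dsum ρ ρ'))),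
      (∀ i, (v'' (Sum.inl i) : r ⊕ r' → E' ⊗[ℚ] V) = Sum.elim (v i : r → E' ⊗[ℚ] V) 0) ∧
      ∀ i, (v'' (Sum.inr i) : r ⊕ r' → E' ⊗[ℚ] V) = Sum.elim (0 : r → E' ⊗[ℚ] V) (v' i : r' → E' ⊗[ℚ] V) := by
  obtain ⟨w, h1, h2⟩ := sum_basis a v v'
  obtain ⟨w', h3⟩ := cast_basis a (contra_dsum (ρ := ρ) (ρ' := ρ')) w
  exact ⟨w', fun i => by rw [h3, h1], fun i => by rw [h3, h2]⟩

/-- the determinant of a sum -/
theorem det_sum {ι ι' : Type} [Fintype ι] [Fintype ι'] [DecidableEq ι] [DecidableEq ι']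
    (τ : E' →+* ℂ) {v : ι → r → E' ⊗[ℚ] V} {u : ι → r → E' ⊗[ℚ] W} {v' : ι' → r' → E' ⊗[ℚ] V}
    {u' : ι' → r' → E' ⊗[ℚ] W} {v'' : ι ⊕ ι' → r ⊕ r' → E' ⊗[ℚ] V}
    {u'' : ι ⊕ ι' → r ⊕ r' → E' ⊗[ℚ] W} (h1 : ∀ i, v'' (Sum.inl i) = Sum.elim (v i) 0)
    (h2 : ∀ i, v'' (Sum.inr i) = Sum.elim (0 : r → E' ⊗[ℚ] V) (v' i)) (h3 : ∀ i, u'' (Sum.inl i) = Sum.elim (u i) 0)
    (h4 : ∀ i, u'' (Sum.inr i) = Sum.elim (0 : r → E' ⊗[ℚ] W) (u' i)) :
    (gram b τ v'' u'').det = (gram b τ v u).det * (gram b τ v' u').det := by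
  rw [← det_fromBlocks_zero₂₁ (gram b τ v u) 0 (gram b τ v' u')]
  congr 1
  have z1 : ∀ {r : Type} [Fintype r] (w : r → E' ⊗[ℚ] W), vpair b τ (0 : r → E' ⊗[ℚ] V) w = 0 := by
    intro r _ w
    simp [vpair]
  have z2 : ∀ {r : Type} [Fintype r] (w : r → E' ⊗[ℚ] V), vpair b τ w (0 : r → E' ⊗[ℚ] W) = 0 := by
    intro r _ w
    simp [vpair]
  ext i j
  rcases i with i | i <;> rcases j with j | j <;>
    simp only [gram, Matrix.of_apply, h1, h2, h3, h4, vpair_elim, z1, z2, fromBlocks_apply₁₁,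
      fromBlocks_apply₁₂, fromBlocks_apply₂₁, fromBlocks_apply₂₂, add_zero, zero_add,
      Matrix.zero_apply]

/-- change of the bases -/
theorem det_change {ι ι' : Type} [Fintype ι] [Fintype ι'] [DecidableEq ι] [DecidableEq ι']
    (hcard : Fintype.card ι' = Fintype.card ι) (v : Basis ι E' (invariants a ρ))
    (v' : Basis ι' E' (invariants a ρ)) (u : Basis ι E' (invariants a' (contragredient ρ)))
    (u' : Basis ι' E' (invariants a' (contragredient ρ))) : ∃ e : E', e ≠ 0 ∧ ∀ τ : E' →+* ℂ,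
      (gram b τ (fun i => (v' i : r → E' ⊗[ℚ] V)) (fun i => (u' i : r → E' ⊗[ℚ] W))).det =
        τ e * (gram b τ (fun i => (v i : r → E' ⊗[ℚ] V)) (fun i => (u i : r → E' ⊗[ℚ] W))).det := by
  let σ : ι' ≃ ι := Fintype.equivOfCardEq hcard
  have hP : (v.toMatrix (v'.reindex σ)).det ≠ 0 := by
    have h1 := congrArg Matrix.det (v.toMatrix_mul_toMatrix_flip (v'.reindex σ))
    rw [det_mul, det_one] at h1
    exact left_ne_zero_of_mul_eq_one h1
  have hQ : (u.toMatrix (u'.reindex σ)).det ≠ 0 := by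
    have h1 := congrArg Matrix.det (u.toMatrix_mul_toMatrix_flip (u'.reindex σ))
    rw [det_mul, det_one] at h1
    exact left_ne_zero_of_mul_eq_one h1
  refine ⟨(v.toMatrix (v'.reindex σ)).det * (u.toMatrix (u'.reindex σ)).det,
    mul_ne_zero hP hQ, fun τ => ?_⟩
  have h1 : ∀ i, ((v'.reindex σ i : invariants a ρ) : r → E' ⊗[ℚ] V) =
      ∑ j, (v.toMatrix (v'.reindex σ))ᵀ i j • (v j : r → E' ⊗[ℚ] V) := by
    intro i
    have := congrArg Subtype.val (v.sum_toMatrix_smul_self (v'.reindex σ) i)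
    rw [← this, Submodule.coe_sum]
    rfl
  have h2 : ∀ i, ((u'.reindex σ i : invariants a' (contragredient ρ)) : r → E' ⊗[ℚ] W) =
      ∑ j, (u.toMatrix (u'.reindex σ))ᵀ i j • (u j : r → E' ⊗[ℚ] W) := by
    intro i
    have := congrArg Subtype.val (u.sum_toMatrix_smul_self (u'.reindex σ) i)
    rw [← this, Submodule.coe_sum]
    rfl
  have h3 := gram_change b τ _ _ h1 h2
  have h4 : gram b τ (fun i => ((v'.reindex σ i : invariants a ρ) : r → E' ⊗[ℚ] V))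
      (fun i => ((u'.reindex σ i : invariants a' (contragredient ρ)) : r → E' ⊗[ℚ] W)) =
      (gram b τ (fun i => (v' i : r → E' ⊗[ℚ] V))
        (fun i => (u' i : r → E' ⊗[ℚ] W))).submatrix σ.symm σ.symm := by
    ext i j
    simp only [gram, Matrix.of_apply, Matrix.submatrix_apply, Basis.reindex_apply]
  rw [h4] at h3
  have h5 := congrArg Matrix.det h3
  rw [det_submatrix_equiv_self, det_mul, det_mul] at h5
  rw [h5, det_transpose, ← RingHom.mapMatrix_apply, ← RingHom.mapMatrix_apply, ← RingHom.map_det,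
    ← RingHom.map_det, det_transpose, det_transpose, map_mul]
  ring

end

section

variable {Γ : Type} [Group Γ] {E' : Type} [Field E'] [Algebra ℚ E'] (E'' : Type) [Field E'']
  [Algebra ℚ E''] [Algebra E' E''] [IsScalarTower ℚ E' E''] [FiniteDimensional E' E'']
  {V W : Type} [AddCommGroup V] [Module ℚ V] [AddCommGroup W] [Module ℚ W]
  (a : Γ →* Module.End ℚ V) (a' : Γ →* Module.End ℚ W)
  (b : V →ₗ[ℚ] W →ₗ[ℚ] ℝ) {r : Type} [Fintype r] [DecidableEq r] {ρ : Γ →* Matrix r r E'}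

theorem up_basis' {ι : Type} (B : Basis ι E' (invariants a (contragredient ρ))) :
    ∃ B' : Basis ι E'' (invariants a (contragredient (TI.baseRep E'' ρ))), ∀ i k,
      (B' i : r → E'' ⊗[ℚ] V) k = up E'' ((B i : r → E' ⊗[ℚ] V) k) := by
  obtain ⟨B', h1⟩ := exists_upBasis E'' a _ B
  obtain ⟨B'', h2⟩ := cast_basis a (contra_base E'' ρ) B'
  exact ⟨B'', fun i k => by rw [h2, h1]⟩

theorem gram_up {ι κ : Type} {v : ι → r → E' ⊗[ℚ] V} {u : κ → r → E' ⊗[ℚ] W}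
    {v' : ι → r → E'' ⊗[ℚ] V} {u' : κ → r → E'' ⊗[ℚ] W} (h1 : ∀ i k, v' i k = up E'' (v i k))
    (h2 : ∀ i k, u' i k = up E'' (u i k)) (τ : E'' →+* ℂ) :
    gram b τ v' u' = gram b (τ.comp (algebraMap E' E'')) v u := by
  ext i j
  simp only [gram, Matrix.of_apply, vpair, h1, h2, pairing_up]

variable {r₁ r₂ : Type} [Fintype r₁] [DecidableEq r₁] [Fintype r₂] [DecidableEq r₂]
  {ρ₁ : Γ →* Matrix r₁ r₁ E''} {ρ₂ : Γ →* Matrix r₂ r₂ E''}

/-- bases of the invariants for a difference -/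
theorem sub_basis {A : Matrix (r ⊕ r₂) r₁ E''} {B : Matrix r₁ (r ⊕ r₂) E''} (hAB : A * B = 1)
    (hBA : B * A = 1) (hA : ∀ γ, TI.dsum (TI.baseRep E'' ρ) ρ₂ γ * A = A * ρ₁ γ)
    {ι₁ ι₂ : Type} [Fintype ι₁] [Fintype ι₂] (v₁ : Basis ι₁ E'' (invariants a ρ₁))
    (v₂ : Basis ι₂ E'' (invariants a ρ₂)) {N : ℕ} (hN : Fintype.card ι₁ = N + Fintype.card ι₂) :
    ∃ (v : Basis (Fin N) E' (invariants a ρ)) (v₀ : Basis (Fin N) E''
      (invariants a (TI.baseRep E'' ρ))) (v' : Basis (Fin N ⊕ ι₂) E'' (invariants a ρ₁)),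
      (∀ i k, (v₀ i : r → E'' ⊗[ℚ] V) k = up E'' ((v i : r → E' ⊗[ℚ] V) k)) ∧
      (∀ i, app A (v' (Sum.inl i) : r₁ → E'' ⊗[ℚ] V) = Sum.elim (v₀ i : r → E'' ⊗[ℚ] V) 0) ∧
      ∀ i, app A (v' (Sum.inr i) : r₁ → E'' ⊗[ℚ] V) =
        Sum.elim (0 : r → E'' ⊗[ℚ] V) (v₂ i : r₂ → E'' ⊗[ℚ] V) := by
  classical
  let κ : Basis _ E' (invariants a ρ) := Basis.ofVectorSpace E' (invariants a ρ)
  obtain ⟨κ', hκ'⟩ := exists_upBasis E'' a ρ κ
  obtain ⟨κ'', h1, h2⟩ := sum_basis a κ' v₂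
  have e1 := κ''.indexEquiv (v₁.map (isoInv a hAB hBA hA))
  have f1 := Finite.of_equiv _ e1.symm
  have f2 : Finite (Basis.ofVectorSpaceIndex E' (invariants a ρ)) :=
    Finite.of_injective Sum.inl (Sum.inl_injective (β := ι₂))
  have f3 := Fintype.ofFinite (Basis.ofVectorSpaceIndex E' (invariants a ρ))
  have c1 := Fintype.card_congr e1
  rw [Fintype.card_sum, hN] at c1
  have c2 : Fintype.card (Basis.ofVectorSpaceIndex E' (invariants a ρ)) = N := by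
    have := Nat.add_right_cancel c1
    exact this
  let σ := Fintype.equivFinOfCardEq c2
  refine ⟨κ.reindex σ, κ'.reindex σ, (κ''.reindex (Equiv.sumCongr σ (Equiv.refl ι₂))).map
    (isoInv a hAB hBA hA).symm, fun i k => ?_, fun i => ?_, fun i => ?_⟩
  · rw [Basis.reindex_apply, Basis.reindex_apply, hκ']
  · rw [← isoInv_apply a hAB hBA hA, Basis.map_apply, LinearEquiv.apply_symm_apply,
      Basis.reindex_apply, Basis.reindex_apply]
    exact h1 _
  · rw [← isoInv_apply a hAB hBA hA, Basis.map_apply, LinearEquiv.apply_symm_apply,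
      Basis.reindex_apply]
    exact h2 _

end

end Pool.Agent.Helper51K9.BK
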