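import Pool.Agent.Helper51K9.BK.Defs

/-!
# Invariants of a twist and the pairing
-/

set_option autoImplicit false
set_option linter.unusedSectionVars false

namespace Pool.Agent.Helper51K9.BK

open Matrix TensorProduct Module

section

variable {Γ : Type} [Group Γ] {E' : Type} [Field E'] {r : Type} [Fintype r] [DecidableEq r]

/-- the contragredient representation -/
def contragredient (ρ : Γ →* Matrix r r E') : Γ →* Matrix r r E' where
  toFun γ := (ρ γ⁻¹)ᵀ
  map_one' := by rw [inv_one, map_one, transpose_one]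
  map_mul' γ δ := by rw [_root_.mul_inv_rev, map_mul, transpose_mul]

variable [Algebra ℚ E'] {V : Type} [AddCommGroup V] [Module ℚ V]

/-- The vectors of `E'^r ⊗ V` fixed by `Γ`, where `Γ` acts on `E'^r` by `ρ` and on the rational
vector space `V` by `a`. -/
def invariants (a : Γ →* Module.End ℚ V) (ρ : Γ →* Matrix r r E') :
    Submodule E' (r → E' ⊗[ℚ] V) where
  carrier := {v | ∀ γ i, ∑ j, ρ γ i j • (a γ).baseChange E' (v j) = v i}
  add_mem' {v w} hv hw γ i := by
    simp only [Pi.add_apply, map_add, smul_add, Finset.sum_add_distrib, hv γ i, hw γ i]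
  zero_mem' γ i := by simp
  smul_mem' c v hv γ i := by
    simp only [Pi.smul_apply, map_smul]
    rw [← hv γ i, Finset.smul_sum]
    exact Finset.sum_congr rfl fun j _ => smul_comm _ _ _

theorem mem_invariants {a : Γ →* Module.End ℚ V} {ρ : Γ →* Matrix r r E'} {v : r → E' ⊗[ℚ] V} :
    v ∈ invariants a ρ ↔ ∀ γ i, ∑ j, ρ γ i j • (a γ).baseChange E' (v j) = v i := Iff.rfl

end

section

variable {E' : Type} [Field E'] [Algebra ℚ E'] {V W : Type} [AddCommGroup V] [Module ℚ V]
  [AddCommGroup W] [Module ℚ W]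

theorem map_rsmul (τ : E' →+* ℂ) (q : ℚ) (x : E') : τ (q • x) = q * τ x := by
  rw [Algebra.smul_def, map_mul, eq_ratCast (algebraMap ℚ E') q, map_ratCast]

/-- the pairing `(x ⊗ v, y ⊗ w) ↦ τ(x) τ(y) b(v, w)` -/
noncomputable def pairing (b : V →ₗ[ℚ] W →ₗ[ℚ] ℝ) (τ : E' →+* ℂ) :
    E' ⊗[ℚ] V →ₗ[ℚ] E' ⊗[ℚ] W →ₗ[ℚ] ℂ :=
  TensorProduct.lift (LinearMap.mk₂ ℚ (fun x v => TensorProduct.lift
    (LinearMap.mk₂ ℚ (fun y w => τ x * τ y * (b v w : ℂ))
      (fun y y' w => by rw [map_add]; ring)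
      (fun q y w => by rw [map_rsmul, Rat.smul_def]; ring)
      (fun y w w' => by rw [map_add]; push_cast; ring)
      (fun q y w => by rw [map_smul, Rat.smul_def, Rat.smul_def]; push_cast; ring)))
    (fun x x' v => by ext y w; simp; ring)
    (fun q x v => by ext y w; simp [map_rsmul, Rat.smul_def]; ring)
    (fun x v v' => by ext y w; simp; ring)
    (fun q x v => by ext y w; simp [Rat.smul_def]; ring))

theorem pairing_tmul (b : V →ₗ[ℚ] W →ₗ[ℚ] ℝ) (τ : E' →+* ℂ) (x y : E') (v : V) (w : W) :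
    pairing b τ (x ⊗ₜ v) (y ⊗ₜ w) = τ x * τ y * (b v w : ℂ) := by
  simp [pairing]

theorem pairing_smul_left (b : V →ₗ[ℚ] W →ₗ[ℚ] ℝ) (τ : E' →+* ℂ) (c : E') (x : E' ⊗[ℚ] V)
    (y : E' ⊗[ℚ] W) : pairing b τ (c • x) y = τ c * pairing b τ x y := by
  induction x with
  | zero => simp
  | add x x' h h' => simp only [smul_add, map_add, LinearMap.add_apply, h, h']; ring
  | tmul e v =>
    induction y with
    | zero => simp
    | add y y' h h' => simp only [map_add, h, h']; ring
    | tmul f w =>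
      rw [TensorProduct.smul_tmul', pairing_tmul, pairing_tmul, smul_eq_mul, map_mul]
      ring

theorem pairing_smul_right (b : V →ₗ[ℚ] W →ₗ[ℚ] ℝ) (τ : E' →+* ℂ) (c : E') (x : E' ⊗[ℚ] V)
    (y : E' ⊗[ℚ] W) : pairing b τ x (c • y) = τ c * pairing b τ x y := by
  induction x with
  | zero => simp
  | add x x' h h' => simp only [map_add, LinearMap.add_apply, h, h']; ring
  | tmul e v =>
    induction y with
    | zero => simp
    | add y y' h h' => simp only [smul_add, map_add, h, h']; ring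
    | tmul f w =>
      rw [TensorProduct.smul_tmul', pairing_tmul, pairing_tmul, smul_eq_mul, map_mul]
      ring

/-- the pairing of vectors -/
noncomputable def vpair (b : V →ₗ[ℚ] W →ₗ[ℚ] ℝ) (τ : E' →+* ℂ) {r : Type} [Fintype r]
    (v : r → E' ⊗[ℚ] V) (w : r → E' ⊗[ℚ] W) : ℂ := ∑ k, pairing b τ (v k) (w k)

/-- the matrix of the pairing -/
noncomputable def gram (b : V →ₗ[ℚ] W →ₗ[ℚ] ℝ) (τ : E' →+* ℂ) {r : Type} [Fintype r] {ι κ : Type}
    (v : ι → r → E' ⊗[ℚ] V) (w : κ → r → E' ⊗[ℚ] W) : Matrix ι κ ℂ :=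
  Matrix.of fun i j => vpair b τ (v i) (w j)

end

end Pool.Agent.Helper51K9.BK
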