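import Pool.Agent.Helper51K9.UC.Gen
import Pool.Agent.Helper51K9.BK.Lin

/-!
# Values attached to representations, modulo the field of coefficients: a general formalism
-/

set_option autoImplicit false
set_option linter.unusedSectionVars false

namespace Pool.Agent.Helper51K9.BK

open Matrix Pool.Agent.R389 Pool.Agent.H541R3.ART TI UC

section

variable {E' : Type} [Field E'] {w w' w'' u u' : (E' →+* ℂ) → ℂ}

theorem Same.refl (w : (E' →+* ℂ) → ℂ) : Same w w := ⟨1, one_ne_zero, fun τ => by simp⟩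

theorem Same.symm (h : Same w w') : Same w' w := by
  obtain ⟨e, he, h⟩ := h
  exact ⟨e⁻¹, inv_ne_zero he, fun τ => by
    rw [h, map_inv₀, inv_mul_cancel_left₀ ((map_ne_zero τ).2 he)]⟩

theorem Same.trans (h : Same w w') (h' : Same w' w'') : Same w w'' := by
  obtain ⟨e, he, h⟩ := h
  obtain ⟨e', he', h'⟩ := h'
  exact ⟨e * e', mul_ne_zero he he', fun τ => by rw [h, h', map_mul]; ring⟩

theorem Same.mul (h : Same w w') (h' : Same u u') :
    Same (fun τ => w τ * u τ) (fun τ => w' τ * u' τ) := by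
  obtain ⟨e, he, h⟩ := h
  obtain ⟨e', he', h'⟩ := h'
  exact ⟨e * e', mul_ne_zero he he', fun τ => by simp only [h, h', map_mul]; ring⟩

theorem Same.pow (h : Same w w') (d : ℕ) : Same (fun τ => w τ ^ d) (fun τ => w' τ ^ d) := by
  obtain ⟨e, he, h⟩ := h
  exact ⟨e ^ d, pow_ne_zero d he, fun τ => by simp only [h, map_pow, mul_pow]⟩

theorem Same.cancel (hu : ∀ τ, u τ ≠ 0) (hu' : Same u u')
    (h : Same (fun τ => w τ * u τ) (fun τ => w' τ * u' τ)) : Same w w' := by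
  obtain ⟨e, he, h⟩ := h
  obtain ⟨e', he', h'⟩ := hu'
  refine ⟨e / e', div_ne_zero he he', fun τ => ?_⟩
  have n1 : τ e' ≠ 0 := (map_ne_zero τ).2 he'
  have n2 : u' τ ≠ 0 := by
    intro h0
    apply hu τ
    rw [h', h0, mul_zero]
  have h1 := h τ
  simp only [h'] at h1
  rw [map_div₀]
  field_simp
  apply mul_right_cancel₀ n2
  linear_combination h1

end

/-- A formalism of values: `Val ρ w` says that `w τ` are nonzero complex numbers attached to the
representation `ρ` with coefficients in `E'`; they are unique up to `E'^×`, multiplicative, compatible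
with the extension of the coefficients, and exist for a difference (see `TwistInvariance`). -/
structure Formalism (Γ : Type) [Group Γ] (E : Type) [Field E] where
  Val : ∀ (E' : Type) [Field E'] [NumberField E'] [Algebra E E'] (r : Type) [Fintype r]
    [DecidableEq r], (Γ →* Matrix r r E') → ((E' →+* ℂ) → ℂ) → Prop
  ne : ∀ {E' : Type} [Field E'] [NumberField E'] [Algebra E E'] {r : Type} [Fintype r]
    [DecidableEq r] {ρ : Γ →* Matrix r r E'} {w : (E' →+* ℂ) → ℂ}, Val E' r ρ w → ∀ τ, w τ ≠ 0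
  unique : ∀ {E' : Type} [Field E'] [NumberField E'] [Algebra E E'] {r : Type} [Fintype r]
    [DecidableEq r] {ρ : Γ →* Matrix r r E'} {w w' : (E' →+* ℂ) → ℂ}, Val E' r ρ w →
    Val E' r ρ w' → Same w w'
  dsum : ∀ {E' : Type} [Field E'] [NumberField E'] [Algebra E E'] {r : Type} [Fintype r]
    [DecidableEq r] {ρ : Γ →* Matrix r r E'} {r' : Type} [Fintype r']
    [DecidableEq r'] {ρ' : Γ →* Matrix r' r' E'} {w w' : (E' →+* ℂ) → ℂ}, Val E' r ρ w →
    Val E' r' ρ' w' → Val E' (r ⊕ r') (TI.dsum ρ ρ') (fun τ => w τ * w' τ)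
  iso : ∀ {E' : Type} [Field E'] [NumberField E'] [Algebra E E'] {r : Type} [Fintype r]
    [DecidableEq r] {ρ : Γ →* Matrix r r E'} {r' : Type} [Fintype r']
    [DecidableEq r'] {ρ' : Γ →* Matrix r' r' E'} {w : (E' →+* ℂ) → ℂ} {A : Matrix r r' E'}
    {B : Matrix r' r E'}, A * B = 1 → B * A = 1 → (∀ γ, ρ γ * A = A * ρ' γ) →
    Val E' r' ρ' w → Val E' r ρ w
  base : ∀ {E' : Type} [Field E'] [NumberField E'] [Algebra E E'] (E'' : Type) [Field E'']
    [NumberField E''] [Algebra E E''] [Algebra E' E''] [IsScalarTower E E' E''] {r : Type}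
    [Fintype r] [DecidableEq r] {ρ : Γ →* Matrix r r E'} {w : (E' →+* ℂ) → ℂ}, Val E' r ρ w →
    Val E'' r (baseRep E'' ρ) (fun τ => w (τ.comp (algebraMap E' E'')))
  sub : ∀ {E' : Type} [Field E'] [NumberField E'] [Algebra E E'] (E'' : Type) [Field E'']
    [NumberField E''] [Algebra E E''] [Algebra E' E''] [IsScalarTower E E' E''] {r : Type}
    [Fintype r] [DecidableEq r] (ρ : Γ →* Matrix r r E') {r₁ : Type} [Fintype r₁] [DecidableEq r₁]
    {r₂ : Type} [Fintype r₂] [DecidableEq r₂] {ρ₁ : Γ →* Matrix r₁ r₁ E''}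
    {ρ₂ : Γ →* Matrix r₂ r₂ E''} {w₁ w₂ : (E'' →+* ℂ) → ℂ}, Val E'' r₁ ρ₁ w₁ →
    Val E'' r₂ ρ₂ w₂ → ∀ (A : Matrix (r ⊕ r₂) r₁ E'') (B : Matrix r₁ (r ⊕ r₂) E''), A * B = 1 →
    B * A = 1 → (∀ γ, TI.dsum (baseRep E'' ρ) ρ₂ γ * A = A * ρ₁ γ) → ∃ w, Val E' r ρ w

variable {Γ : Type} [Group Γ] {E : Type} [Field E] [NumberField E] (𝓕 : Formalism Γ E)

section

variable (N : Subgroup Γ) [N.Normal] [Finite (Γ ⧸ N)]

/-- **Existence of all the values.** -/
theorem val_all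
    (h : ∀ (E' : Type) [Field E'] [NumberField E'] [Algebra E E'] (U : Subgroup Γ), N ≤ U →
      Group.IsNilpotent (U.map (QuotientGroup.mk' N)) → ∀ [Fintype (Γ ⧸ U)] [DecidableEq (Γ ⧸ U)]
      (ψ : U →* E'ˣ), (∀ γ : U, (γ : Γ) ∈ N → ψ γ = 1) → ∃ w, 𝓕.Val E' _ (induced U ψ) w)
    {E' : Type} [Field E'] [NumberField E'] [Algebra E E'] {r : Type} [Fintype r] [DecidableEq r]
    (ρ : Γ →* Matrix r r E') (hρ : ∀ γ ∈ N, ρ γ = 1) : ∃ w, 𝓕.Val E' r ρ w := by
  classical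
  have hne : NeZero (Monoid.exponent (Γ ⧸ N)) := ⟨Monoid.exponent_ne_zero_of_finite⟩
  obtain ⟨E'', _, _, _, _, _, _, ζ, hζ⟩ := exists_field E E' (Monoid.exponent (Γ ⧸ N))
  have hπ : Function.Surjective (QuotientGroup.mk' N) := QuotientGroup.mk'_surjective N
  let T : Set ((Γ ⧸ N) → E'') := {f | ∃ (k : Type) (_ : Fintype k) (_ : DecidableEq k)
    (s : Γ →* Matrix k k E''), (∀ γ ∈ N, s γ = 1) ∧
      (∀ γ, (s γ).trace = f (QuotientGroup.mk' N γ)) ∧ ∃ w, 𝓕.Val E'' k s w}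
  have hadd : ∀ a ∈ T, ∀ b ∈ T, a + b ∈ T := by
    rintro a ⟨k, _, _, s, h1, h2, w, h3⟩ b ⟨k', _, _, s', h1', h2', w', h3'⟩
    refine ⟨k ⊕ k', inferInstance, inferInstance, dsum s s', fun γ hγ => ?_, fun γ => ?_,
      _, 𝓕.dsum h3 h3'⟩
    · rw [dsum_apply, h1 γ hγ, h1' γ hγ, fromBlocks_one]
    · rw [trace_dsum, h2, h2', Pi.add_apply]
  have hind : ∀ (U : Subgroup (Γ ⧸ N)) (ψ : U →* E''ˣ), Group.IsNilpotent U →
      ind U (fun u => ((ψ u : E''ˣ) : E'')) ∈ T := by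
    intro U ψ hU
    obtain ⟨i1, i2, hNU, hψ, h1, h2⟩ := induced_ok N U ψ
    have hmap : (U.comap (QuotientGroup.mk' N)).map (QuotientGroup.mk' N) = U :=
      Subgroup.map_comap_eq_self_of_surjective hπ U
    exact ⟨_, i1, i2, _, h1, h2, h E'' _ hNU (by rw [hmap]; exact hU) _ hψ⟩
  have hbase : ∀ γ ∈ N, baseRep E'' ρ γ = 1 := fun γ hγ => by
    change (ρ γ).map (algebraMap E' E'') = 1
    rw [hρ γ hγ, Matrix.map_one _ (map_zero _) (map_one _)]
  obtain ⟨f, τ₀, hf1, hf2⟩ := exists_char N (baseRep E'' ρ) hbase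
  obtain ⟨a, ⟨n₁, _, _, ρ₁, h1, h2, w₁, h3⟩, b, ⟨n₂, _, _, ρ₂, k1, k2, w₂, k3⟩, hab⟩ :=
    RG.brauer_field hζ τ₀ T hadd hind f hf2
  obtain ⟨A, B, hAB, hBA, hA⟩ := exists_iso N (dsum (baseRep E'' ρ) ρ₂) ρ₁ (fun γ hγ => by
    rw [dsum_apply, k1 γ hγ, hbase γ hγ, fromBlocks_one]) h1 (fun γ => by
      rw [trace_dsum, h2, k2, hf1, ← hab, Pi.add_apply])
  exact 𝓕.sub E'' ρ h3 k3 A B hAB hBA hA

/-- the trivial representation of dimension `d + 1` -/
theorem val_triv {E'' : Type} [Field E''] [NumberField E''] [Algebra E E'']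
    {w : (E'' →+* ℂ) → ℂ} (h : 𝓕.Val E'' (Fin 1) 1 w) (d : ℕ) :
    ∃ (k : Type) (_ : Fintype k) (_ : DecidableEq k) (s : Γ →* Matrix k k E''),
      (∀ γ, s γ = 1) ∧ (∀ γ, (s γ).trace = (d : E'') + 1) ∧
      𝓕.Val E'' k s (fun τ => w τ ^ (d + 1)) := by
  induction d with
  | zero =>
    refine ⟨Fin 1, inferInstance, inferInstance, 1, fun γ => rfl, fun γ => ?_, ?_⟩
    · rw [MonoidHom.one_apply, Matrix.trace_one, Fintype.card_fin]
      simp
    · simpa using h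
  | succ d ih =>
    obtain ⟨k, _, _, s, h1, h2, h3⟩ := ih
    refine ⟨k ⊕ Fin 1, inferInstance, inferInstance, dsum s 1, fun γ => ?_, fun γ => ?_, ?_⟩
    · rw [dsum_apply, h1, MonoidHom.one_apply, fromBlocks_one]
    · rw [trace_dsum, h2, MonoidHom.one_apply, Matrix.trace_one, Fintype.card_fin]
      push_cast
      ring
    · have := 𝓕.dsum h3 h
      simpa only [pow_succ] using this

/-- **The relations for all representations.** -/
theorem val_rel
    (h : ∀ (E' : Type) [Field E'] [NumberField E'] [Algebra E E'] (U : Subgroup Γ), N ≤ U →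
      Group.IsNilpotent (U.map (QuotientGroup.mk' N)) → ∀ [Fintype (Γ ⧸ U)] [DecidableEq (Γ ⧸ U)]
      (ψ : U →* E'ˣ), (∀ γ : U, (γ : Γ) ∈ N → ψ γ = 1) → ∃ w w₁, 𝓕.Val E' _ (induced U ψ) w ∧
        𝓕.Val E' _ (induced U (1 : U →* E'ˣ)) w₁ ∧ Same w w₁)
    {E' : Type} [Field E'] [NumberField E'] [Algebra E E'] {r : Type} [Fintype r] [DecidableEq r]
    (ρ : Γ →* Matrix r r E') (hρ : ∀ γ ∈ N, ρ γ = 1) {w w₁ : (E' →+* ℂ) → ℂ}
    (hw : 𝓕.Val E' r ρ w) (hw₁ : 𝓕.Val E' (Fin 1) 1 w₁) :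
    Same w (fun τ => w₁ τ ^ Fintype.card r) := by
  classical
  have hne : NeZero (Monoid.exponent (Γ ⧸ N)) := ⟨Monoid.exponent_ne_zero_of_finite⟩
  obtain ⟨E'', _, _, _, _, _, _, ζ, hζ⟩ := exists_field E E' (Monoid.exponent (Γ ⧸ N))
  have hπ : Function.Surjective (QuotientGroup.mk' N) := QuotientGroup.mk'_surjective N
  let T : Set (((Γ ⧸ N) → E'') × ((Γ ⧸ N) → E'')) := {p | ∃ (k : Type) (_ : Fintype k)
    (_ : DecidableEq k) (s : Γ →* Matrix k k E'') (k' : Type) (_ : Fintype k')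
    (_ : DecidableEq k') (s' : Γ →* Matrix k' k' E''), (∀ γ ∈ N, s γ = 1) ∧ (∀ γ ∈ N, s' γ = 1) ∧
      (∀ γ, (s γ).trace = p.1 (QuotientGroup.mk' N γ)) ∧
      (∀ γ, (s' γ).trace = p.2 (QuotientGroup.mk' N γ)) ∧
      ∃ w w', 𝓕.Val E'' k s w ∧ 𝓕.Val E'' k' s' w' ∧ Same w w'}
  have hadd : ∀ a ∈ T, ∀ b ∈ T, a + b ∈ T := by
    rintro a ⟨k, _, _, s, k', _, _, s', h1, h2, h3, h4, u, u', h5, h6, h7⟩
      b ⟨l, _, _, t, l', _, _, t', h1', h2', h3', h4', v, v', h5', h6', h7'⟩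
    refine ⟨k ⊕ l, inferInstance, inferInstance, dsum s t, k' ⊕ l', inferInstance, inferInstance,
      dsum s' t', fun γ hγ => ?_, fun γ hγ => ?_, fun γ => ?_, fun γ => ?_, _, _, 𝓕.dsum h5 h5',
      𝓕.dsum h6 h6', h7.mul h7'⟩
    · rw [dsum_apply, h1 γ hγ, h1' γ hγ, fromBlocks_one]
    · rw [dsum_apply, h2 γ hγ, h2' γ hγ, fromBlocks_one]
    · rw [trace_dsum, h3, h3']; rfl
    · rw [trace_dsum, h4, h4']; rfl
  have hswap : ∀ a ∈ T, a.swap ∈ T := by
    rintro a ⟨k, i1, i2, s, k', i3, i4, s', h1, h2, h3, h4, u, u', h5, h6, h7⟩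
    exact ⟨k', i3, i4, s', k, i1, i2, s, h2, h1, h4, h3, u', u, h6, h5, h7.symm⟩
  have hind : ∀ (U : Subgroup (Γ ⧸ N)) (ψ : U →* E''ˣ), Group.IsNilpotent U →
      (ind U (fun u => ((ψ u : E''ˣ) : E'')), ind U (fun _ => 1)) ∈ T := by
    intro U ψ hU
    obtain ⟨i1, i2, hNU, hψ, h1, h2⟩ := induced_ok N U ψ
    obtain ⟨i3, i4, -, hψ', h1', h2'⟩ := induced_ok N U (1 : U →* E''ˣ)
    have e3 : i3 = i1 := Subsingleton.elim _ _
    have e4 : i4 = i2 := Subsingleton.elim _ _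
    subst e3
    subst e4
    have hmap : (U.comap (QuotientGroup.mk' N)).map (QuotientGroup.mk' N) = U :=
      Subgroup.map_comap_eq_self_of_surjective hπ U
    have h3 := h E'' _ hNU (by rw [hmap]; exact hU) _ hψ
    refine ⟨_, i3, i4, _, _, i3, i4, _, h1, h1', h2, fun γ => ?_, h3⟩
    rw [h2' γ]
    simp only [MonoidHom.one_apply, Units.val_one]
  have hbase : ∀ γ ∈ N, baseRep E'' ρ γ = 1 := fun γ hγ => by
    change (ρ γ).map (algebraMap E' E'') = 1
    rw [hρ γ hγ, Matrix.map_one _ (map_zero _) (map_one _)]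
  obtain ⟨f, τ₀, hf1, hf2⟩ := exists_char N (baseRep E'' ρ) hbase
  obtain ⟨a, b, ⟨k, _, _, s, k', _, _, s', h1, h2, h3, h4, u, u', h5, h6, h7⟩, hab⟩ :=
    deg_zero_field hζ τ₀ T hadd hswap hind f hf2
  have hfd : f 1 = Fintype.card r := by
    have h8 := hf1 1
    rw [map_one, map_one, Matrix.trace_one] at h8
    exact h8.symm
  -- the trivial representations
  have hb1 : baseRep E'' (1 : Γ →* Matrix (Fin 1) (Fin 1) E') = 1 := by
    ext1 γ
    change ((1 : Matrix (Fin 1) (Fin 1) E')).map (algebraMap E' E'') = 1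
    rw [Matrix.map_one _ (map_zero _) (map_one _)]
  have q1 := 𝓕.base E'' hw
  have q2 := 𝓕.base E'' hw₁
  rw [hb1] at q2
  obtain ⟨l, _, _, t, t1, t2, t3⟩ := val_triv 𝓕 q2 (Fintype.card r)
  obtain ⟨A, B, hAB, hBA, hA⟩ := exists_iso N (dsum (dsum (baseRep E'' ρ) s')
    (1 : Γ →* Matrix (Fin 1) (Fin 1) E'')) (dsum s t) (fun γ hγ => by
      rw [dsum_apply, dsum_apply, h2 γ hγ, hbase γ hγ, MonoidHom.one_apply, fromBlocks_one,
        fromBlocks_one]) (fun γ hγ => by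
      rw [dsum_apply, h1 γ hγ, t1, fromBlocks_one]) (fun γ => by
      rw [trace_dsum, trace_dsum, trace_dsum, hf1, h4, h3, t2, MonoidHom.one_apply,
        Matrix.trace_one, Fintype.card_fin, hab, hfd]
      push_cast
      ring)
  have q3 := 𝓕.dsum (𝓕.dsum q1 h6) q2
  have q4 := 𝓕.iso hAB hBA hA (𝓕.dsum h5 t3)
  have key : Same (fun τ : E'' →+* ℂ => w (τ.comp (algebraMap E' E'')))
      (fun τ => w₁ (τ.comp (algebraMap E' E'')) ^ Fintype.card r) := by
    have h8 := 𝓕.unique q3 q4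
    have n1 := 𝓕.ne q2
    refine Same.cancel (u := u') (u' := u) (𝓕.ne h6) h7.symm ?_
    refine Same.cancel (u := fun τ => w₁ (τ.comp (algebraMap E' E'')))
      (u' := fun τ => w₁ (τ.comp (algebraMap E' E''))) n1 (Same.refl _) ?_
    obtain ⟨e, he, h9⟩ := h8
    refine ⟨e, he, fun τ => ?_⟩
    have h10 := h9 τ
    simp only at h10 ⊢
    rw [h10, pow_succ]
    ring
  -- descent
  obtain ⟨e, he, hk⟩ := key
  obtain ⟨a', ha', h8⟩ := desc_elt (E := E') (E' := E'') (e := e)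
    (v := fun σ => w σ / w₁ σ ^ Fintype.card r) (fun τ => by
      have n1 := pow_ne_zero (Fintype.card r) (𝓕.ne hw₁ (τ.comp (algebraMap E' E'')))
      rw [div_eq_iff n1]
      exact hk τ)
  refine ⟨a', ?_, fun τ => ?_⟩
  · rintro rfl
    rw [map_zero] at ha'
    exact he ha'.symm
  · have n1 := pow_ne_zero (Fintype.card r) (𝓕.ne hw₁ τ)
    have := h8 τ
    rw [div_eq_iff n1] at this
    exact this

/-- **The constant**: the relations for all representations, and the rationality of the values for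
representations whose dimensions have no common divisor, give it for all representations -/
theorem val_const
    (hex : ∀ (E' : Type) [Field E'] [NumberField E'] [Algebra E E'] (r : Type) [Fintype r]
      [DecidableEq r] (ρ : Γ →* Matrix r r E'), (∀ γ ∈ N, ρ γ = 1) → ∃ w, 𝓕.Val E' r ρ w)
    (hrel : ∀ (E' : Type) [Field E'] [NumberField E'] [Algebra E E'] (r : Type) [Fintype r]
      [DecidableEq r] (ρ : Γ →* Matrix r r E'), (∀ γ ∈ N, ρ γ = 1) → ∀ w w₁ : (E' →+* ℂ) → ℂ,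
      𝓕.Val E' r ρ w → 𝓕.Val E' (Fin 1) 1 w₁ → Same w (fun τ => w₁ τ ^ Fintype.card r))
    (hQ : ∀ l : ℕ, l.Prime → ∃ (E' : Type) (_ : Field E') (_ : NumberField E') (_ : Algebra E E')
      (r : Type) (_ : Fintype r) (_ : DecidableEq r) (ρ : Γ →* Matrix r r E'),
      (∀ γ ∈ N, ρ γ = 1) ∧ ¬ l ∣ Fintype.card r ∧ ∃ w, 𝓕.Val E' r ρ w ∧ Same w (fun _ => 1))
    {E' : Type} [Field E'] [NumberField E'] [Algebra E E'] {r : Type} [Fintype r] [DecidableEq r]
    (ρ : Γ →* Matrix r r E') (hρ : ∀ γ ∈ N, ρ γ = 1) :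
    ∃ w, 𝓕.Val E' r ρ w ∧ Same w (fun _ => 1) := by
  obtain ⟨w₁, hw₁⟩ := hex E (Fin 1) 1 (fun _ _ => rfl)
  have hbase : ∀ (E' : Type) [Field E'] [NumberField E'] [Algebra E E'],
      𝓕.Val E' (Fin 1) 1 (fun τ => w₁ (τ.comp (algebraMap E E'))) := by
    intro E' _ _ _
    have h1 := 𝓕.base E' hw₁
    have h2 : baseRep E' (1 : Γ →* Matrix (Fin 1) (Fin 1) E) = 1 := by
      ext1 γ
      change ((1 : Matrix (Fin 1) (Fin 1) E)).map (algebraMap E E') = 1
      rw [Matrix.map_one _ (map_zero _) (map_one _)]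
    rw [h2] at h1
    exact h1
  -- the subgroup of exponents
  let H : AddSubgroup ℤ :=
    { carrier := {d | ∃ e : E, e ≠ 0 ∧ ∀ τ, (w₁ τ) ^ d = τ e}
      zero_mem' := ⟨1, one_ne_zero, fun τ => by simp⟩
      add_mem' := by
        rintro a b ⟨e, he, h1⟩ ⟨f, hf, h2⟩
        refine ⟨e * f, mul_ne_zero he hf, fun τ => ?_⟩
        rw [zpow_add₀ (𝓕.ne hw₁ τ), h1, h2, map_mul]
      neg_mem' := by
        rintro a ⟨e, he, h1⟩
        refine ⟨e⁻¹, inv_ne_zero he, fun τ => ?_⟩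
        rw [_root_.zpow_neg, h1, map_inv₀] }
  have h1 : (1 : ℤ) ∈ H := by
    refine one_mem_int H fun l hl => ?_
    obtain ⟨E₂, _, _, _, k, _, _, s, hs, hk, w, hw, f, hf, h2⟩ := hQ l hl
    refine ⟨Fintype.card k, ?_, hk⟩
    obtain ⟨e, he, h1⟩ := hrel E₂ k s hs _ _ hw (hbase E₂)
    obtain ⟨a, ha, h3⟩ := desc_elt (e := f / e) (v := fun σ => (w₁ σ) ^ Fintype.card k) (by
      intro τ
      have h3 := h1 τ
      rw [h2 τ] at h3
      have n1 : τ e ≠ 0 := (map_ne_zero τ).2 he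
      rw [map_div₀, eq_div_iff n1]
      linear_combination -h3)
    refine ⟨a, ?_, fun τ => ?_⟩
    · rintro rfl
      rw [map_zero] at ha
      exact div_ne_zero hf he ha.symm
    · rw [zpow_natCast]
      exact h3 τ
  obtain ⟨a, ha, h2⟩ := h1
  obtain ⟨w, hw⟩ := hex E' r ρ hρ
  obtain ⟨e, he, h4⟩ := hrel E' r ρ hρ _ _ hw (hbase E')
  refine ⟨w, hw, e * algebraMap E E' a ^ Fintype.card r,
    mul_ne_zero he (pow_ne_zero _ ((_root_.map_ne_zero _).2 ha)), fun τ => ?_⟩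
  have h5 := h2 (τ.comp (algebraMap E E'))
  rw [zpow_one] at h5
  have h6 := h4 τ
  beta_reduce at h6 ⊢
  rw [h6, map_mul, map_pow, h5, mul_one]
  rfl

end

end Pool.Agent.Helper51K9.BK
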