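import Pool.Agent.Helper51K9.BK.Bas
import Pool.Agent.Helper51K9.BK.Form

/-!
# The quotient of the leading coefficient and of the regulator
-/

set_option autoImplicit false
set_option linter.unusedSectionVars false

namespace Pool.Agent.Helper51K9.BK

open Matrix TensorProduct Module Polynomial Filter Topology TI UC

section

variable {Γ : Type} [Group Γ] {E : Type} [Field E] {n : ℕ} {P : Type} (M : Realizations Γ E n P)
  {E' : Type} [Field E'] [NumberField E'] [Algebra E E'] [Algebra.IsAlgebraic E E']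
  (E'' : Type) [Field E''] [NumberField E''] [Algebra E E''] [Algebra E' E'']
  [IsScalarTower E E' E''] [Algebra.IsAlgebraic E' E''] {r : Type} [Fintype r] [DecidableEq r]
  (ρ : Γ →* Matrix r r E')

/-- the L-function of a difference -/
theorem isL_sub {r₁ r₂ : Type} [Fintype r₁] [DecidableEq r₁]
    [Fintype r₂] [DecidableEq r₂] {ρ₁ : Γ →* Matrix r₁ r₁ E''} {ρ₂ : Γ →* Matrix r₂ r₂ E''}
    {L₁ L₂ : (E'' →+* ℂ) → ℂ → ℂ} (hL₁ : IsLFunction M ρ₁ L₁) (hL₂ : IsLFunction M ρ₂ L₂)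
    (hz₂ : ∀ τ, ∃ b : ℝ, ∀ s : ℂ, b < s.re → L₂ τ s ≠ 0)
    (A : Matrix (r ⊕ r₂) r₁ E'') (B : Matrix r₁ (r ⊕ r₂) E'') (hAB : A * B = 1) (hBA : B * A = 1)
    (hA : ∀ γ, dsum (baseRep E'' ρ) ρ₂ γ * A = A * ρ₁ γ) (ext : (E' →+* ℂ) → (E'' →+* ℂ))
    (hext : ∀ τ, (ext τ).comp (algebraMap E' E'') = τ) :
    IsLFunction M ρ (fun τ s => L₁ (ext τ) s / L₂ (ext τ) s) := by
  have : Algebra.IsAlgebraic E E'' := Algebra.IsAlgebraic.trans E E' E''
  obtain ⟨Q₁, hQ₁, hP₁⟩ := hL₁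
  obtain ⟨Q₂, hQ₂, hP₂⟩ := hL₂
  have hQ : ∀ p, ∃ Q₀ : E'[X], IsLocalFactor M ρ p Q₀ ∧
      Q₁ p = Q₀.map (algebraMap E' E'') * Q₂ p := by
    intro p
    have h1 := (hQ₁ p).iso M hAB hBA hA
    obtain ⟨Q, h2, h3⟩ := IsLocalFactor.div M h1 (hQ₂ p)
    obtain ⟨Q₀, h4, h5⟩ := factor_desc M E'' ρ p h2
    exact ⟨Q₀, h5, by rw [h4, h3]⟩
  choose Q₀ hQ₀ hQQ using hQ
  refine ⟨Q₀, hQ₀, fun τ => ?_⟩
  obtain ⟨m1, b, hb⟩ := hP₁ (ext τ)
  obtain ⟨m2, b', hb'⟩ := hP₂ (ext τ)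
  obtain ⟨z, hz⟩ := hz₂ (ext τ)
  refine ⟨m1.div m2, max b (max b' z), fun s hs => ?_⟩
  have hs1 : b < s.re := lt_of_le_of_lt (le_max_left _ _) hs
  have hs2 : b' < s.re := lt_of_le_of_lt ((le_max_left _ _).trans (le_max_right _ _)) hs
  have hs3 : z < s.re := lt_of_le_of_lt ((le_max_right _ _).trans (le_max_right _ _)) hs
  have k1 := hb s hs1
  have k2 := hb' s hs2
  have k3 := hz s hs3
  have k4 : ∀ p : P, ((Q₂ p).map (ext τ)).eval ((M.norm p : ℂ) ^ (-s)) ≠ 0 := by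
    intro p h0
    apply k3
    refine k2.unique ?_
    have : HasProd (fun p : P =>
        (((Q₂ p).map (ext τ)).eval ((M.norm p : ℂ) ^ (-s)))⁻¹) 0 := by
      refine hasProd_zero_of_exists_eq_zero ⟨p, ?_⟩
      rw [h0, _root_.inv_zero]
    exact this
  have k5 : Tendsto (fun F : Finset P => (∏ p ∈ F,
      (((Q₁ p).map (ext τ)).eval ((M.norm p : ℂ) ^ (-s)))⁻¹) /
      ∏ p ∈ F, (((Q₂ p).map (ext τ)).eval ((M.norm p : ℂ) ^ (-s)))⁻¹) atTop
      (𝓝 (L₁ (ext τ) s / L₂ (ext τ) s)) := Tendsto.div k1 k2 k3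
  refine k5.congr fun F => ?_
  rw [← Finset.prod_div_distrib]
  refine Finset.prod_congr rfl fun p _ => ?_
  have h6 : (Q₁ p).map (ext τ) = (Q₀ p).map τ * (Q₂ p).map (ext τ) := by
    rw [hQQ, Polynomial.map_mul, Polynomial.map_map, hext]
  rw [h6, Polynomial.eval_mul, mul_inv, div_inv_eq_mul, mul_assoc, inv_mul_cancel₀ (k4 p),
    mul_one]

end

section

variable {Γ : Type} [Group Γ] {n : ℕ} {P : Type} (M : Realizations Γ ℚ n P)
  {V W : Type} [AddCommGroup V] [Module ℚ V] [AddCommGroup W] [Module ℚ W]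
  (a : Γ →* Module.End ℚ V) (a' : Γ →* Module.End ℚ W) (b : V →ₗ[ℚ] W →ₗ[ℚ] ℝ) (d : ℕ)

/-- the quotient of the leading coefficient of the L-function by the determinant of the pairing; the
bases are indexed by any set with `d dim ρ` elements -/
def Val' {E' : Type} [Field E'] [Algebra ℚ E'] {r : Type} [Fintype r] [DecidableEq r]
    (ρ : Γ →* Matrix r r E') (w : (E' →+* ℂ) → ℂ) : Prop :=
  ∃ (ι : Type) (_ : Fintype ι) (_ : DecidableEq ι), Fintype.card ι = d * Fintype.card r ∧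
    ∃ L, IsLFunction M ρ L ∧ (∀ τ, ∃ x : ℝ, ∀ s : ℂ, x < s.re → L τ s ≠ 0) ∧
    ∃ (v : Basis ι E' (invariants a ρ)) (u : Basis ι E' (invariants a' (contragredient ρ))),
      ∀ τ : E' →+* ℂ,
        (gram b τ (fun i => (v i : r → E' ⊗[ℚ] V)) (fun i => (u i : r → E' ⊗[ℚ] W))).det ≠ 0 ∧
        ∃ c : ℂ, c ≠ 0 ∧
          Tendsto (fun s => L τ s / s ^ (d * Fintype.card r)) (𝓝[≠] 0) (𝓝 c) ∧
          w τ = c /
            (gram b τ (fun i => (v i : r → E' ⊗[ℚ] V)) (fun i => (u i : r → E' ⊗[ℚ] W))).det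

variable {M a a' b d}

section

variable {E' : Type} [Field E'] [NumberField E'] [Algebra ℚ E'] {r r' : Type} [Fintype r]
  [DecidableEq r] [Fintype r'] [DecidableEq r'] {ρ : Γ →* Matrix r r E'}
  {ρ' : Γ →* Matrix r' r' E'} {w w' : (E' →+* ℂ) → ℂ}

theorem alg_of (E' : Type) [Field E'] [NumberField E'] [Algebra ℚ E'] :
    Algebra.IsAlgebraic ℚ E' := by
  have : FiniteDimensional ℚ E' := by
    have h := NumberField.to_finiteDimensional (K := E')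
    convert h
    exact Subsingleton.elim _ _
  exact Algebra.IsAlgebraic.of_finite ℚ E'

theorem Val'.ne (h : Val' M a a' b d ρ w) (τ : E' →+* ℂ) : w τ ≠ 0 := by
  obtain ⟨ι, _, _, hι, L, hL, hz, v, u, h1⟩ := h
  obtain ⟨h2, c, h3, h4, h5⟩ := h1 τ
  rw [h5]
  exact div_ne_zero h3 h2

theorem Val'.unique (h : Val' M a a' b d ρ w) (h' : Val' M a a' b d ρ w') : Same w w' := by
  obtain ⟨ι, _, _, hι, L, hL, hz, v, u, h1⟩ := h
  obtain ⟨ι', _, _, hι', L', hL', hz', v', u', h1'⟩ := h'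
  have := alg_of E'
  obtain ⟨e, he, h2⟩ := det_change a a' b (hι'.trans hι.symm) v v' u u'
  refine ⟨e, he, fun τ => ?_⟩
  obtain ⟨n1, c, h3, h4, h5⟩ := h1 τ
  obtain ⟨n1', c', h3', h4', h5'⟩ := h1' τ
  have h6 : c' = c := by
    refine tendsto_nhds_unique (h4'.congr' ?_) h4
    filter_upwards [hL'.eventuallyEq M hL τ 0] with s hs
    rw [hs]
  have n2 : τ e ≠ 0 := (map_ne_zero τ).2 he
  rw [h5, h5', h2, h6]
  field_simp

theorem Val'.dsum (h : Val' M a a' b d ρ w) (h' : Val' M a a' b d ρ' w') :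
    Val' M a a' b d (TI.dsum ρ ρ') (fun τ => w τ * w' τ) := by
  obtain ⟨ι, _, _, hι, L, hL, hz, v, u, h1⟩ := h
  obtain ⟨ι', _, _, hι', L', hL', hz', v', u', h1'⟩ := h'
  obtain ⟨v'', a1, a2⟩ := sum_basis a v v'
  obtain ⟨u'', a3, a4⟩ := sum_basis' a' u u'
  refine ⟨ι ⊕ ι', inferInstance, inferInstance, ?_, _, hL.mul M hL', fun τ => ?_, v'', u'',
    fun τ => ?_⟩
  · rw [Fintype.card_sum, Fintype.card_sum, hι, hι', mul_add]
  · obtain ⟨b, hb⟩ := hz τ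
    obtain ⟨b', hb'⟩ := hz' τ
    exact ⟨max b b', fun s hs => mul_ne_zero (hb s (lt_of_le_of_lt (le_max_left _ _) hs))
      (hb' s (lt_of_le_of_lt (le_max_right _ _) hs))⟩
  · obtain ⟨n1, c, h3, h4, h5⟩ := h1 τ
    obtain ⟨n1', c', h3', h4', h5'⟩ := h1' τ
    rw [det_sum b τ a1 a2 a3 a4]
    refine ⟨mul_ne_zero n1 n1', c * c', mul_ne_zero h3 h3', ?_, ?_⟩
    · refine (h4.mul h4').congr fun s => ?_
      rw [Fintype.card_sum, mul_add, pow_add, div_mul_div_comm]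
    · simp only [h5, h5', div_mul_div_comm]

theorem card_eq_of {A : Matrix r r' E'} {B : Matrix r' r E'} (hAB : A * B = 1)
    (hBA : B * A = 1) : Fintype.card r = Fintype.card r' := by
  have h1 := Matrix.trace_mul_comm A B
  rw [hAB, hBA, Matrix.trace_one, Matrix.trace_one] at h1
  exact_mod_cast h1

theorem gram_iso {ι : Type} {A : Matrix r r' E'} {B : Matrix r' r E'} (hBA : B * A = 1)
    (τ : E' →+* ℂ) (v : ι → r' → E' ⊗[ℚ] V) (u : ι → r' → E' ⊗[ℚ] W) :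
    gram b τ (fun i => app A (v i)) (fun i => app Bᵀ (u i)) = gram b τ v u := by
  ext i j
  simp only [gram, Matrix.of_apply, vpair_app b τ hBA]

theorem Val'.iso {A : Matrix r r' E'} {B : Matrix r' r E'} (hAB : A * B = 1)
    (hBA : B * A = 1) (hA : ∀ γ, ρ γ * A = A * ρ' γ) (h : Val' M a a' b d ρ' w) :
    Val' M a a' b d ρ w := by
  obtain ⟨ι, _, _, hι, L, hL, hz, v, u, h1⟩ := h
  have hc := card_eq_of hAB hBA
  have hAB' : Bᵀ * Aᵀ = 1 := by rw [← transpose_mul, hAB, transpose_one]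
  have hBA' : Aᵀ * Bᵀ = 1 := by rw [← transpose_mul, hBA, transpose_one]
  refine ⟨ι, inferInstance, inferInstance, by rw [hι, hc], L, hL.iso M hAB hBA hA, hz,
    v.map (isoInv a hAB hBA hA), u.map (isoInv a' hAB' hBA' (contra_comm hAB hBA hA)),
    fun τ => ?_⟩
  have h2 : gram b τ (fun i => ((v.map (isoInv a hAB hBA hA) i : invariants a ρ) :
      r → E' ⊗[ℚ] V)) (fun i => ((u.map (isoInv a' hAB' hBA' (contra_comm hAB hBA hA)) i :
      invariants a' (contragredient ρ)) : r → E' ⊗[ℚ] W)) =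
      gram b τ (fun i => (v i : r' → E' ⊗[ℚ] V)) (fun i => (u i : r' → E' ⊗[ℚ] W)) := by
    rw [← gram_iso hBA τ]
    rfl
  rw [h2, hc]
  exact h1 τ

end

section

variable {E' : Type} [Field E'] [NumberField E'] [Algebra ℚ E'] (E'' : Type) [Field E'']
  [NumberField E''] [Algebra ℚ E''] [Algebra E' E''] [IsScalarTower ℚ E' E''] {r : Type}
  [Fintype r] [DecidableEq r] {ρ : Γ →* Matrix r r E'} {w : (E' →+* ℂ) → ℂ}

theorem fd_of (E' E'' : Type) [Field E'] [NumberField E'] [Algebra ℚ E'] [Field E'']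
    [NumberField E''] [Algebra ℚ E''] [Algebra E' E''] [IsScalarTower ℚ E' E''] :
    FiniteDimensional E' E'' := by
  have : FiniteDimensional ℚ E'' := by
    have h := NumberField.to_finiteDimensional (K := E'')
    convert h
    exact Subsingleton.elim _ _
  exact Module.Finite.of_restrictScalars_finite ℚ E' E''

theorem Val'.base (h : Val' M a a' b d ρ w) :
    Val' M a a' b d (baseRep E'' ρ) (fun τ => w (τ.comp (algebraMap E' E''))) := by
  obtain ⟨ι, _, _, hι, L, hL, hz, v, u, h1⟩ := h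
  have := alg_of E'
  have := fd_of E' E''
  have : Algebra.IsAlgebraic E' E'' := Algebra.IsAlgebraic.of_finite E' E''
  obtain ⟨v', hv'⟩ := exists_upBasis E'' a ρ v
  obtain ⟨u', hu'⟩ := up_basis' E'' a' u
  refine ⟨ι, inferInstance, inferInstance, hι, _, isL_base M E'' ρ hL, fun τ => hz _, v', u',
    fun τ => ?_⟩
  rw [gram_up E'' b hv' hu' τ]
  exact h1 _

theorem Val'.sub (ρ : Γ →* Matrix r r E') {r₁ r₂ : Type} [Fintype r₁] [DecidableEq r₁]
    [Fintype r₂] [DecidableEq r₂] {ρ₁ : Γ →* Matrix r₁ r₁ E''} {ρ₂ : Γ →* Matrix r₂ r₂ E''}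
    {w₁ w₂ : (E'' →+* ℂ) → ℂ} (h₁ : Val' M a a' b d ρ₁ w₁) (h₂ : Val' M a a' b d ρ₂ w₂)
    (A : Matrix (r ⊕ r₂) r₁ E'') (B : Matrix r₁ (r ⊕ r₂) E'') (hAB : A * B = 1) (hBA : B * A = 1)
    (hA : ∀ γ, TI.dsum (baseRep E'' ρ) ρ₂ γ * A = A * ρ₁ γ) : ∃ w, Val' M a a' b d ρ w := by
  obtain ⟨ι₁, _, _, hι₁, L₁, hL₁, hz₁, v₁, u₁, h1⟩ := h₁
  obtain ⟨ι₂, _, _, hι₂, L₂, hL₂, hz₂, v₂, u₂, h2⟩ := h₂
  have := alg_of E'
  have := fd_of E' E''
  have : Algebra.IsAlgebraic E' E'' := Algebra.IsAlgebraic.of_finite E' E''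
  have hc := card_eq_of hAB hBA
  rw [Fintype.card_sum] at hc
  have hN : Fintype.card ι₁ = d * Fintype.card r + Fintype.card ι₂ := by
    rw [hι₁, hι₂, ← hc, mul_add]
  have hAB' : Bᵀ * Aᵀ = 1 := by rw [← transpose_mul, hAB, transpose_one]
  have hBA' : Aᵀ * Bᵀ = 1 := by rw [← transpose_mul, hBA, transpose_one]
  obtain ⟨v, v₀, v', hv₀, hv1, hv2⟩ := sub_basis E'' a hAB hBA hA v₁ v₂ hN
  have hA' : ∀ γ, TI.dsum (baseRep E'' (contragredient ρ)) (contragredient ρ₂) γ * Bᵀ =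
      Bᵀ * contragredient ρ₁ γ := by
    intro γ
    rw [← contra_base, ← contra_dsum]
    exact contra_comm hAB hBA hA γ
  obtain ⟨u, u₀, u', hu₀, hu1, hu2⟩ := sub_basis E'' a' hAB' hBA' hA' u₁ u₂ hN
  obtain ⟨e, he, hdet⟩ := det_change a a' b (by rw [Fintype.card_sum, Fintype.card_fin, hN])
    v₁ v' u₁ u'
  choose ext hext using exists_ext E' E'' ℂ
  -- the determinants
  have key : ∀ τ : E' →+* ℂ, (gram b τ (fun i => (v i : r → E' ⊗[ℚ] V))
      (fun i => (u i : r → E' ⊗[ℚ] W))).det ≠ 0 := by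
    intro τ
    have k1 := hdet (ext τ)
    rw [← gram_iso hBA (ext τ)] at k1
    have k2 := det_sum b (ext τ) (v := fun i => (v₀ i : r → E'' ⊗[ℚ] V))
      (u := fun i => (u₀ i : r → E'' ⊗[ℚ] W)) (v' := fun i => (v₂ i : r₂ → E'' ⊗[ℚ] V))
      (u' := fun i => (u₂ i : r₂ → E'' ⊗[ℚ] W))
      (v'' := fun i => app A (v' i : r₁ → E'' ⊗[ℚ] V))
      (u'' := fun i => app Bᵀ (u' i : r₁ → E'' ⊗[ℚ] W)) hv1 hv2 hu1 hu2
    rw [k2, gram_up E'' b hv₀ hu₀, hext] at k1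
    intro h0
    rw [h0, zero_mul] at k1
    exact mul_ne_zero ((map_ne_zero (ext τ)).2 he) (h1 (ext τ)).1 k1.symm
  choose n1 c₁ c1 c2 c3 using fun τ => h1 (ext τ)
  choose n2 c₂ d1 d2 d3 using fun τ => h2 (ext τ)
  refine ⟨fun τ => (c₁ τ / c₂ τ) / (gram b τ (fun i => (v i : r → E' ⊗[ℚ] V))
      (fun i => (u i : r → E' ⊗[ℚ] W))).det, Fin (d * Fintype.card r), inferInstance,
    inferInstance, Fintype.card_fin _, _, isL_sub M E'' ρ hL₁ hL₂ hz₂ A B hAB hBA hA ext hext,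
    fun τ => ?_, v, u, fun τ => ⟨key τ, c₁ τ / c₂ τ, div_ne_zero (c1 τ) (d1 τ), ?_, rfl⟩⟩
  · obtain ⟨b, hb⟩ := hz₁ (ext τ)
    obtain ⟨b', hb'⟩ := hz₂ (ext τ)
    exact ⟨max b b', fun s hs => div_ne_zero (hb s (lt_of_le_of_lt (le_max_left _ _) hs))
      (hb' s (lt_of_le_of_lt (le_max_right _ _) hs))⟩
  · refine ((c2 τ).div (d2 τ) (d1 τ)).congr' ?_
    filter_upwards [self_mem_nhdsWithin] with s hs
    have hs0 : s ≠ 0 := hs
    change L₁ (ext τ) s / s ^ (d * Fintype.card r₁) / (L₂ (ext τ) s / s ^ (d * Fintype.card r₂)) =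
      L₁ (ext τ) s / L₂ (ext τ) s / s ^ (d * Fintype.card r)
    rw [← hc, mul_add, pow_add]
    have p1 : s ^ (d * Fintype.card r) ≠ 0 := pow_ne_zero _ hs0
    have p2 : s ^ (d * Fintype.card r₂) ≠ 0 := pow_ne_zero _ hs0
    by_cases hL : L₂ (ext τ) s = 0
    · simp [hL]
    · field_simp

end

variable (M a a' b d) in
/-- the formalism of the quotient of the leading coefficient by the determinant -/
noncomputable def formalism : Formalism Γ ℚ where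
  Val E' _ _ _ r _ _ ρ w := Val' M a a' b d ρ w
  ne h τ := h.ne τ
  unique h h' := h.unique h'
  dsum h h' := h.dsum h'
  iso hAB hBA hA h := h.iso hAB hBA hA
  base E'' _ _ _ _ _ _ _ _ _ _ h := h.base E''
  sub E'' _ _ _ _ _ _ _ _ ρ _ _ _ _ _ _ _ _ _ _ h₁ h₂ A B hAB hBA hA :=
    Val'.sub E'' ρ h₁ h₂ A B hAB hBA hA

end

end Pool.Agent.Helper51K9.BK
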