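import Pool.Agent.Helper51K9.BK.Int
import Pool.Agent.Helper51K9.BK.Bas
import Pool.Agent.Helper51K9.BK.Val
import Pool.Agent.Helper51K9.TI.Arith

/-!
# The classical form of the conjectures for the curves over the fields `K`
-/

set_option autoImplicit false
set_option linter.unusedSectionVars false

namespace Pool.Agent.Helper51K9.BK

open Matrix Filter Topology NumberField IsDedekindDomain TensorProduct Module TI

/-! ### invariants of an induced representation -/

section

variable {Γ : Type} [Group Γ] {V : Type} [AddCommGroup V] [Module ℚ V]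
  (a : Γ →* Module.End ℚ V) (U : Subgroup Γ) [Fintype (Γ ⧸ U)] [DecidableEq (Γ ⧸ U)]

theorem ind_apply (γ : Γ) (x y : Γ ⧸ U) :
    induced U (1 : U →* ℚˣ) γ x y = if γ • y = x then 1 else 0 := by
  change inducedMatrix U (1 : U →* ℚˣ) γ x y = _
  rw [inducedMatrix, Matrix.of_apply]
  by_cases h : x.out⁻¹ * γ * y.out ∈ U
  · rw [dif_pos h, if_pos ((mem_iff U x y γ).1 h)]
    rfl
  · rw [dif_neg h, if_neg fun h' => h ((mem_iff U x y γ).2 h')]

theorem contra_ind : contragredient (induced U (1 : U →* ℚˣ)) = induced U (1 : U →* ℚˣ) := by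
  ext γ x y
  change (induced U (1 : U →* ℚˣ) γ⁻¹) y x = _
  rw [ind_apply, ind_apply]
  refine if_congr ?_ rfl rfl
  rw [inv_smul_eq_iff, eq_comm]

/-- the identification of `ℚ ⊗ V` with `V` -/
noncomputable abbrev toV : ℚ ⊗[ℚ] V ≃ₗ[ℚ] V := TensorProduct.lid ℚ V

theorem toV_comp (f : Module.End ℚ V) (z : ℚ ⊗[ℚ] V) : toV (f.baseChange ℚ z) = f (toV z) := by
  induction z with
  | zero => simp
  | add x y hx hy => simp only [map_add, hx, hy]
  | tmul x v => simp [toV]

theorem mem_ind {v : Γ ⧸ U → ℚ ⊗[ℚ] V} : v ∈ invariants a (induced U (1 : U →* ℚˣ)) ↔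
    ∀ γ x, (a γ).baseChange ℚ (v x) = v (γ • x) := by
  rw [mem_invariants]
  have key : ∀ γ i, ∑ j, induced U (1 : U →* ℚˣ) γ i j • (a γ).baseChange ℚ (v j) =
      (a γ).baseChange ℚ (v (γ⁻¹ • i)) := by
    intro γ i
    rw [Finset.sum_eq_single (γ⁻¹ • i)]
    · rw [ind_apply, if_pos (smul_inv_smul γ i), one_smul]
    · intro j _ hj
      rw [ind_apply, if_neg, zero_smul]
      intro h
      apply hj
      rw [← h, inv_smul_smul]
    · intro h
      exact absurd (Finset.mem_univ _) h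
  constructor
  · intro h γ x
    have := h γ (γ • x)
    rwa [key, inv_smul_smul] at this
  · intro h γ i
    rw [key, h, smul_inv_smul]

/-- the vectors fixed by `U` -/
def fixedVec : Submodule ℚ V where
  carrier := {v | ∀ γ ∈ U, a γ v = v}
  add_mem' {v w} hv hw γ hγ := by rw [map_add, hv γ hγ, hw γ hγ]
  zero_mem' γ _ := map_zero _
  smul_mem' q v hv γ hγ := by rw [map_smul, hv γ hγ]

theorem out_act {w : V} (hw : w ∈ fixedVec a U) (γ : Γ) (x : Γ ⧸ U) :
    a (γ • x).out w = a γ (a x.out w) := by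
  have h1 : (γ • x).out⁻¹ * γ * x.out ∈ U := (mem_iff U (γ • x) x γ).2 rfl
  have h2 : γ * x.out = (γ • x).out * ((γ • x).out⁻¹ * γ * x.out) := by group
  calc a (γ • x).out w = a (γ • x).out (a ((γ • x).out⁻¹ * γ * x.out) w) := by rw [hw _ h1]
    _ = a ((γ • x).out * ((γ • x).out⁻¹ * γ * x.out)) w := by
      rw [map_mul a (γ • x).out]
      rfl
    _ = a γ (a x.out w) := by rw [← h2, map_mul]; rfl

theorem out_one_mem : ((1 : Γ) : Γ ⧸ U).out ∈ U := by
  have h := QuotientGroup.out_eq' ((1 : Γ) : Γ ⧸ U)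
  rw [QuotientGroup.eq] at h
  simpa using h

/-- the invariants of an induced representation -/
noncomputable def indEquiv : fixedVec a U ≃ₗ[ℚ] invariants a (induced U (1 : U →* ℚˣ)) where
  toFun w := ⟨fun x => toV.symm (a x.out w.1), by
    rw [mem_ind]
    intro γ x
    rw [out_act a U w.2]
    apply toV.injective
    rw [toV_comp, LinearEquiv.apply_symm_apply, LinearEquiv.apply_symm_apply]⟩
  map_add' w w' := by
    apply Subtype.ext
    funext x
    simp only [Submodule.coe_add, map_add, Pi.add_apply]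
  map_smul' q w := by
    apply Subtype.ext
    funext x
    simp only [Submodule.coe_smul, map_smul, Pi.smul_apply, RingHom.id_apply]
  invFun v := ⟨toV (v.1 ((1 : Γ) : Γ ⧸ U)), fun γ hγ => by
    have h1 := (mem_ind a U).1 v.2 γ ((1 : Γ) : Γ ⧸ U)
    rw [← toV_comp, h1]
    have h2 : γ • ((1 : Γ) : Γ ⧸ U) = ((1 : Γ) : Γ ⧸ U) := by
      change ((γ * 1 : Γ) : Γ ⧸ U) = _
      rw [QuotientGroup.eq]
      simpa using hγ
    rw [h2]⟩
  left_inv w := by
    apply Subtype.ext
    change toV (toV.symm (a ((1 : Γ) : Γ ⧸ U).out w.1)) = w.1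
    rw [LinearEquiv.apply_symm_apply]
    exact w.2 _ (out_one_mem U)
  right_inv v := by
    apply Subtype.ext
    funext x
    change toV.symm (a x.out (toV (v.1 ((1 : Γ) : Γ ⧸ U)))) = v.1 x
    rw [← toV_comp, LinearEquiv.symm_apply_apply, (mem_ind a U).1 v.2]
    have h2 : x.out • ((1 : Γ) : Γ ⧸ U) = x := by
      change ((x.out * 1 : Γ) : Γ ⧸ U) = _
      rw [mul_one]
      exact QuotientGroup.out_eq' x
    rw [h2]

theorem indEquiv_apply (w : fixedVec a U) (x : Γ ⧸ U) :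
    (indEquiv a U w : Γ ⧸ U → ℚ ⊗[ℚ] V) x = 1 ⊗ₜ[ℚ] a x.out w.1 := rfl

end

/-! ### embeddings -/

section

variable {A : Type} [Field A] [CharZero A] [IsAlgClosed A] [Algebra.IsAlgebraic ℚ A]

/-- two embeddings of `A` that agree on `K` differ by an automorphism over `K` -/
theorem exists_aut (K : IntermediateField ℚ A) (x y : A →ₐ[ℚ] ℂ) (h : x.comp K.val = y.comp K.val) :
    ∃ γ : A ≃ₐ[ℚ] A, γ ∈ K.fixingSubgroup ∧ y = x.comp (γ : A →ₐ[ℚ] A) := by
  have hG : IsGalois ℚ A := isGalois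
  let _ : Algebra A ℂ := (x : A →+* ℂ).toAlgebra
  have hT : IsScalarTower ℚ A ℂ := IsScalarTower.of_algebraMap_eq fun q => (x.commutes q).symm
  let γ : A ≃ₐ[ℚ] A := AlgHom.restrictNormal' y A
  have h1 : ∀ z, x (γ z) = y z := fun z => AlgHom.restrictNormal_commutes y A z
  refine ⟨γ, ?_, AlgHom.ext fun z => (h1 z).symm⟩
  rw [IntermediateField.mem_fixingSubgroup_iff]
  intro z hz
  apply (x : A →+* ℂ).injective
  change x (γ z) = x z
  rw [h1]
  exact (AlgHom.congr_fun h ⟨z, hz⟩).symm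

theorem extend_comp {K : IntermediateField ℚ A} (σ : Emb K) : (extend σ).comp K.val = σ :=
  (exists_extend K σ).choose_spec

end

/-! ### the curve -/

section

variable {A : Type} [Field A] [CharZero A] [IsAlgClosed A] [Algebra.IsAlgebraic ℚ A]
  {k : IntermediateField ℚ A} {g : ℕ} {H H₁ : Type} [AddCommGroup H] [Module ℚ H]
  [AddCommGroup H₁] [Module ℚ H₁] (C : Curve k g H H₁) {K : IntermediateField ℚ A} (h : k ≤ K)

theorem fixed_H : fixedVec C.act (gal k K) = C.HOf K := by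
  ext ξ
  exact ⟨fun h γ hγ => h γ (Subgroup.mem_subgroupOf.2 hγ),
    fun h γ hγ => h γ (Subgroup.mem_subgroupOf.1 hγ)⟩

theorem aut_of_mem (h : k ≤ K) {γ : A ≃ₐ[ℚ] A} (hγ : γ ∈ K.fixingSubgroup) :
    γ ∈ k.fixingSubgroup := IntermediateField.fixingSubgroup_antitone h hγ

/-- a fixed family of cycles depends only on the restriction of the embedding to `K` -/
theorem fixed_eq {t : C.cycles} (ht : t ∈ fixedVec C.cycAct (gal k K)) (h : k ≤ K)
    (x y : A →ₐ[ℚ] ℂ) (hxy : x.comp K.val = y.comp K.val) : t.1 y = t.1 x := by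
  obtain ⟨γ, hγ, rfl⟩ := exists_aut K x y hxy
  have h1 := ht ⟨γ, aut_of_mem h hγ⟩ (Subgroup.mem_subgroupOf.2 hγ)
  exact congrFun (congrArg Subtype.val h1) x

theorem comp_incl (h : k ≤ K) (x : A →ₐ[ℚ] ℂ) :
    (x.comp K.val).comp (IntermediateField.inclusion h) = x.comp k.val := rfl

/-- the fixed families of cycles are the elements of `H_1(C_K(ℂ), ℚ)^-` -/
noncomputable def cycEquiv : C.cyclesOf h ≃ₗ[ℚ] fixedVec C.cycAct (gal k K) where
  toFun t := ⟨⟨fun x => t.1 (x.comp K.val), (mem_cycles C).2 fun x => t.2 (x.comp K.val)⟩, fun γ hγ => by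
    apply Subtype.ext
    funext x
    change t.1 ((x.comp (aut γ)).comp K.val) = t.1 (x.comp K.val)
    have h1 : (x.comp (aut γ)).comp K.val = x.comp K.val := by
      ext y
      change x ((γ : A ≃ₐ[ℚ] A) (y : A)) = x (y : A)
      rw [(IntermediateField.mem_fixingSubgroup_iff K _).1 (Subgroup.mem_subgroupOf.1 hγ) _ y.2]
    rw [h1]⟩
  map_add' _ _ := rfl
  map_smul' _ _ := rfl
  invFun t := ⟨fun σ => t.1.1 (extend σ), fun σ => by
    have h1 := (mem_cycles C).1 t.1.2 (extend σ)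
    refine ⟨?_, ?_⟩
    · have h2 : (extend σ).comp k.val = σ.comp (IntermediateField.inclusion h) := by
        rw [← comp_incl h, extend_comp]
      rw [← h2]
      exact h1.1
    · rw [h1.2]
      congr 1
      refine fixed_eq C t.2 h _ _ ?_
      rw [extend_comp]
      change _ = cc.comp ((extend σ).comp K.val)
      rw [extend_comp]⟩
  left_inv t := by
    apply Subtype.ext
    funext σ
    change t.1 ((extend σ).comp K.val) = t.1 σ
    rw [extend_comp]
  right_inv t := by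
    apply Subtype.ext
    apply Subtype.ext
    funext x
    change t.1.1 (extend (x.comp K.val)) = t.1.1 x
    refine fixed_eq C t.2 h _ _ ?_
    rw [extend_comp]

theorem cycEquiv_apply (t : C.cyclesOf h) (x : A →ₐ[ℚ] ℂ) :
    (cycEquiv C h t).1.1 x = t.1 (x.comp K.val) := rfl

/-- the embeddings of `K` in terms of those of `k` and of the cosets -/
theorem bij [FiniteDimensional ℚ k] (h : k ≤ K) : Function.Bijective
    (fun p : (k.fixingSubgroup ⧸ gal k K) × Emb k =>
      ((extend p.2).comp (aut p.1.out)).comp K.val) := by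
  constructor
  · rintro ⟨x, σ⟩ ⟨x', σ'⟩ hxx
    simp only at hxx
    have h1 : σ = σ' := by
      have h2 := congrArg (fun f : Emb K => f.comp (IntermediateField.inclusion h)) hxx
      simp only [comp_incl] at h2
      rw [comp_val, comp_val, extend_comp, extend_comp] at h2
      exact h2
    subst h1
    obtain ⟨γ, hγ, h2⟩ := exists_aut K _ _ hxx
    have h3 : x'.out = x.out * ⟨γ, aut_of_mem h hγ⟩ := by
      apply Subtype.ext
      ext z
      apply ((extend σ : A →ₐ[ℚ] ℂ) : A →+* ℂ).injective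
      exact AlgHom.congr_fun h2 z
    have h4 : x = x' := by
      rw [← QuotientGroup.out_eq' x, ← QuotientGroup.out_eq' x', QuotientGroup.eq, h3,
        inv_mul_cancel_left]
      exact Subgroup.mem_subgroupOf.2 hγ
    rw [h4]
  · intro σ'
    let y : A →ₐ[ℚ] ℂ := extend σ'
    let σ : Emb k := y.comp k.val
    obtain ⟨γ, hγ, h2⟩ := exists_aut k (extend σ) y (extend_comp σ)
    refine ⟨(((⟨γ, hγ⟩ : k.fixingSubgroup) : k.fixingSubgroup ⧸ gal k K), σ), ?_⟩
    simp only
    have h3 := QuotientGroup.out_eq' ((⟨γ, hγ⟩ : k.fixingSubgroup) : k.fixingSubgroup ⧸ gal k K)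
    rw [QuotientGroup.eq] at h3
    have h4 := Subgroup.mem_subgroupOf.1 h3
    set w := (((⟨γ, hγ⟩ : k.fixingSubgroup) : k.fixingSubgroup ⧸ gal k K)).out with hw
    have h5 : (y.comp K.val : Emb K) = σ' := extend_comp σ'
    rw [← h5, h2]
    ext z
    change extend σ ((w : A ≃ₐ[ℚ] A) (z : A)) = extend σ (γ (z : A))
    congr 1
    have h6 := (IntermediateField.mem_fixingSubgroup_iff K _).1 h4 _ z.2
    have h7 : (w : A ≃ₐ[ℚ] A) ((((w⁻¹ * ⟨γ, hγ⟩ : k.fixingSubgroup)) : A ≃ₐ[ℚ] A) (z : A)) =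
        γ (z : A) := by
      change (w : A ≃ₐ[ℚ] A) ((w : A ≃ₐ[ℚ] A)⁻¹ (γ (z : A))) = γ (z : A)
      exact AlgEquiv.apply_symm_apply _ _
    rw [← h7, h6]

variable [FiniteDimensional ℚ k] [FiniteDimensional ℚ K] [Fintype (k.fixingSubgroup ⧸ gal k K)]
  [DecidableEq (k.fixingSubgroup ⧸ gal k K)]

theorem reg_out (ξ : C.HOf K) (t : C.cyclesOf h) (x y : A →ₐ[ℚ] ℂ)
    (hxy : x.comp K.val = y.comp K.val) :
    C.reg y ξ.1 (t.1 (y.comp K.val)) = C.reg x ξ.1 (t.1 (x.comp K.val)) := by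
  rw [← hxy]
  obtain ⟨γ, hγ, rfl⟩ := exists_aut K x y hxy
  rw [← C.reg_act x ⟨γ, aut_of_mem h hγ⟩]
  congr 2
  exact ξ.2 ⟨γ, aut_of_mem h hγ⟩ hγ

/-- **The regulators.** -/
theorem pair_eq (ξ : C.HOf K) (t : C.cyclesOf h) :
    ∑ x : k.fixingSubgroup ⧸ gal k K,
      C.regulator (C.cycAct x.out (cycEquiv C h t).1) (C.act x.out ξ.1) = C.regulatorOf h ξ t := by
  have h1 : ∀ x : k.fixingSubgroup ⧸ gal k K,
      C.regulator (C.cycAct x.out (cycEquiv C h t).1) (C.act x.out ξ.1) =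
      ∑ σ : Emb k, C.reg ((extend σ).comp (aut x.out)) ξ.1
        (t.1 (((extend σ).comp (aut x.out)).comp K.val)) := by
    intro x
    rw [regulator_apply]
    refine Finset.sum_congr rfl fun σ _ => ?_
    change C.reg (extend σ) (C.act x.out ξ.1) ((C.cycAct x.out (cycEquiv C h t).1).1 (extend σ)) = _
    rw [C.reg_act]
    rfl
  simp only [h1]
  rw [← Finset.sum_product', Curve.regulatorOf]
  refine Fintype.sum_bijective _ (bij h) _ _ fun p => ?_
  have h2 := reg_out C h ξ t (extend (((extend p.2).comp (aut p.1.out)).comp K.val))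
    ((extend p.2).comp (aut p.1.out)) (extend_comp _)
  rw [h2, extend_comp]

theorem finrank_mul (h : k ≤ K) (g : ℕ) : g * finrank ℚ k * Fintype.card (k.fixingSubgroup ⧸ gal k K) =
    g * finrank ℚ K := by
  rw [card_quot k K h, mul_assoc, IntermediateField.finrank_bot_mul_relfinrank h]

/-- the element of `invariants` that belongs to an element of `H_1(C_K(ℂ), ℚ)^-` -/
noncomputable def cycInv : C.cyclesOf h ≃ₗ[ℚ]
    invariants C.cycAct (induced (gal k K) (1 : gal k K →* ℚˣ)) :=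
  (cycEquiv C h).trans (indEquiv C.cycAct (gal k K))

/-- the element of `invariants` that belongs to an element of `H^2_M(C_K, ℚ(2))_ℤ` -/
noncomputable def hInv : C.HOf K ≃ₗ[ℚ]
    invariants C.act (contragredient (induced (gal k K) (1 : gal k K →* ℚˣ))) :=
  ((LinearEquiv.ofEq _ _ (fixed_H C (K := K)).symm).trans (indEquiv C.act (gal k K))).trans
    (LinearEquiv.ofEq _ _ (by rw [contra_ind]))

theorem vpair_eq (τ : ℚ →+* ℂ) (ξ : C.HOf K) (t : C.cyclesOf h) :
    vpair C.regulator τ (cycInv C h t : (k.fixingSubgroup ⧸ gal k K) → ℚ ⊗[ℚ] C.cycles)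
      (hInv C ξ : (k.fixingSubgroup ⧸ gal k K) → ℚ ⊗[ℚ] H) = (C.regulatorOf h ξ t : ℂ) := by
  rw [← pair_eq, vpair]
  push_cast
  refine Finset.sum_congr rfl fun x _ => ?_
  change pairing C.regulator τ (1 ⊗ₜ[ℚ] C.cycAct x.out (cycEquiv C h t).1)
    (1 ⊗ₜ[ℚ] C.act x.out ξ.1) = _
  rw [pairing_tmul, map_one, one_mul, one_mul]

theorem gram_eq (τ : ℚ →+* ℂ) {ι : Type} [Fintype ι] [DecidableEq ι] (ξ : ι → C.HOf K)
    (t : ι → C.cyclesOf h) :
    gram C.regulator τ
      (fun i => (cycInv C h (t i) : (k.fixingSubgroup ⧸ gal k K) → ℚ ⊗[ℚ] C.cycles))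
      (fun i => (hInv C (ξ i) : (k.fixingSubgroup ⧸ gal k K) → ℚ ⊗[ℚ] H)) =
      (Complex.ofRealHom.mapMatrix (Matrix.of fun i j => C.regulatorOf h (ξ i) (t j)))ᵀ := by
  ext i j
  rw [gram, Matrix.of_apply, vpair_eq]
  rfl

theorem det_eq (τ : ℚ →+* ℂ) {ι : Type} [Fintype ι] [DecidableEq ι] (ξ : ι → C.HOf K)
    (t : ι → C.cyclesOf h) :
    (gram C.regulator τ
      (fun i => (cycInv C h (t i) : (k.fixingSubgroup ⧸ gal k K) → ℚ ⊗[ℚ] C.cycles))
      (fun i => (hInv C (ξ i) : (k.fixingSubgroup ⧸ gal k K) → ℚ ⊗[ℚ] H))).det =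
      ((Matrix.of fun i j => C.regulatorOf h (ξ i) (t j)).det : ℂ) := by
  rw [gram_eq, det_transpose, ← RingHom.map_det]
  rfl

end

end Pool.Agent.Helper51K9.BK
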