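import Pool.Agent.Helper51K9.BK.Cls

/-!
# The classical form of the conjectures for the curves over the fields `K`: equivalence
-/

set_option autoImplicit false
set_option linter.unusedSectionVars false

namespace Pool.Agent.Helper51K9.BK

open Matrix Filter Topology NumberField IsDedekindDomain TensorProduct Module TI

variable {A : Type} [Field A] [CharZero A] [IsAlgClosed A] [Algebra.IsAlgebraic ℚ A]
  {k : IntermediateField ℚ A} {g : ℕ} {H H₁ : Type} [AddCommGroup H] [Module ℚ H]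
  [AddCommGroup H₁] [Module ℚ H₁] (C : Curve k g H H₁) {K : IntermediateField ℚ A} (h : k ≤ K)
  [FiniteDimensional ℚ k] [FiniteDimensional ℚ K] [Fintype (k.fixingSubgroup ⧸ gal k K)]
  [DecidableEq (k.fixingSubgroup ⧸ gal k K)]

/-- the determinants of the regulators in corresponding bases -/
theorem det_eq' (τ : ℚ →+* ℂ) {ι : Type} [Fintype ι] [DecidableEq ι]
    (t : Basis ι ℚ (C.cyclesOf h)) (ξ : Basis ι ℚ (C.HOf K)) :
    (gram C.regulator τ
      (fun i => ((t.map (cycInv C h)) i : (k.fixingSubgroup ⧸ gal k K) → ℚ ⊗[ℚ] C.cycles))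
      (fun i => ((ξ.map (hInv C)) i : (k.fixingSubgroup ⧸ gal k K) → ℚ ⊗[ℚ] H))).det =
      ((Matrix.of fun i j => C.regulatorOf h (ξ i) (t j)).det : ℂ) := by
  rw [← det_eq C h τ]
  simp only [Basis.map_apply]

theorem det_reindex {ι κ : Type} [Fintype ι] [DecidableEq ι] [Fintype κ] [DecidableEq κ]
    (e : ι ≃ κ) (t : Basis ι ℚ (C.cyclesOf h)) (ξ : Basis ι ℚ (C.HOf K)) :
    (Matrix.of fun i j => C.regulatorOf h ((ξ.reindex e) i) ((t.reindex e) j)).det =
      (Matrix.of fun i j => C.regulatorOf h (ξ i) (t j)).det := by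
  rw [← det_submatrix_equiv_self e.symm (Matrix.of fun i j => C.regulatorOf h (ξ i) (t j))]
  congr 1
  ext i j
  simp only [Matrix.of_apply, Matrix.submatrix_apply, Basis.reindex_apply]

theorem classical_to (hC : C.Classical' h) :
    C.Beilinson (induced (gal k K) (1 : gal k K →* ℚˣ)) := by
  have hN := finrank_mul h g
  obtain ⟨L, hL, ξ, t, D, hD, hD0, q, hq, hlim⟩ := hC
  have hD1 : (D : ℂ) ≠ 0 := by exact_mod_cast hD0
  have hq1 : (q : ℂ) ≠ 0 := by exact_mod_cast hq
  refine ⟨q, hq, fun _ => L, fun _ => (D : ℂ), hL, (isRegDet_iff C _ _ _).2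
    ⟨(t.reindex (finCongr hN.symm)).map (cycInv C h),
    (ξ.reindex (finCongr hN.symm)).map (hInv C), fun τ => ?_⟩, fun τ => ⟨hD1, q * D,
    mul_ne_zero hq1 hD1, ?_, ?_⟩⟩
  · rw [det_eq', det_reindex, ← hD]
  · rw [hN]
    exact hlim
  · have h3 : τ q = (q : ℂ) := by simp
    beta_reduce
    rw [h3, mul_div_assoc, div_self hD1, mul_one]

theorem of_classical (hB : C.Beilinson (induced (gal k K) (1 : gal k K →* ℚˣ))) :
    C.Classical' h := by
  have hN := finrank_mul h g
  obtain ⟨q, hq, L, D, hL, hD, h1⟩ := hB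
  obtain ⟨t, ξ, h2'⟩ := (isRegDet_iff C _ _ D).1 hD
  obtain ⟨t', ht'⟩ : ∃ t', t' = t.map (cycInv C h).symm := ⟨_, rfl⟩
  obtain ⟨ξ', hξ'⟩ : ∃ ξ', ξ' = ξ.map (hInv C).symm := ⟨_, rfl⟩
  have ht : t = t'.map (cycInv C h) := by
    refine Basis.eq_of_apply_eq fun i => ?_
    rw [ht', Basis.map_apply, Basis.map_apply, LinearEquiv.apply_symm_apply]
  have hξ : ξ = ξ'.map (hInv C) := by
    refine Basis.eq_of_apply_eq fun i => ?_
    rw [hξ', Basis.map_apply, Basis.map_apply, LinearEquiv.apply_symm_apply]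
  obtain ⟨τ⟩ : Nonempty (ℚ →+* ℂ) := ⟨algebraMap ℚ ℂ⟩
  obtain ⟨h3, c, h4, h5, h6⟩ := h1 τ
  have h2 := h2' τ
  rw [ht, hξ, det_eq'] at h2
  have hL' : L = fun _ => L τ := funext fun σ => congrArg L (Subsingleton.elim σ τ)
  refine ⟨L τ, by rw [← hL']; exact hL, ξ'.reindex (finCongr hN), t'.reindex (finCongr hN),
    _, rfl, ?_, q, hq, ?_⟩
  · rw [det_reindex]
    rw [h2] at h3
    exact fun h0 => h3 (by rw [h0, Complex.ofReal_zero])
  · have h10 : τ q = (q : ℂ) := by simp
    beta_reduce at h6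
    rw [h10] at h6
    rw [det_reindex, ← h2, h6, div_mul_cancel₀ _ h3]
    rw [hN] at h5
    exact h5

/-- **The classical form of the conjectures.** -/
theorem classical_iff : C.Classical h ↔
    C.Beilinson (induced (gal k K) (1 : gal k K →* ℚˣ)) :=
  (classical_iff' C h).trans ⟨classical_to C h, of_classical C h⟩

end Pool.Agent.Helper51K9.BK
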