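import Pool.Agent.Helper51K9.TI.Mot

/-!
# Curves over a number field and Beilinson's conjecture for `K_2` with Artin twists

`A` is an algebraic closure of `ℚ`.
-/

set_option autoImplicit false

namespace Pool.Agent.Helper51K9.BK

open Matrix Filter Topology NumberField IsDedekindDomain TensorProduct Module TI

/-- `w = w'` in `(E' ⊗ ℂ)^× / E'^×`: equality up to an element of the field of coefficients `E'` -/
def Same {E' : Type} [Field E'] (w w' : (E' →+* ℂ) → ℂ) : Prop :=
  ∃ e : E', e ≠ 0 ∧ ∀ τ : E' →+* ℂ, w τ = τ e * w' τ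

/-! ### parts that belong to a representation -/

section

variable {Γ : Type} [Group Γ] {E' : Type} [Field E'] [Algebra ℚ E'] {r : Type} [Fintype r]
  {V W : Type} [AddCommGroup V] [Module ℚ V] [AddCommGroup W] [Module ℚ W]

/-- The vector `v` of `E'^r ⊗ V` is fixed by `Γ`, where `Γ` acts on `E'^r` by `ρ` and on the rational
vector space `V` by `a`. -/
def IsFixed (a : Γ → Module.End ℚ V) (ρ : Γ → Matrix r r E') (v : r → E' ⊗[ℚ] V) : Prop :=
  ∀ γ i, ∑ j, ρ γ i j • (a γ).baseChange E' (v j) = v i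

/-- The vectors `u i` are a basis over `E'` of the space of the vectors with the property `P`: these are
the vectors which are linear combinations of the `u i` in exactly one way. -/
def IsBasis (P : (r → E' ⊗[ℚ] V) → Prop) {N : ℕ} (u : Fin N → r → E' ⊗[ℚ] V) : Prop :=
  ∀ x, P x ↔ ∃! c : Fin N → E', ∀ l, x l = ∑ i, c i • u i l

/-- The invariants of `Γ` on `ρ ⊗ V` and on `ρ^* ⊗ W` (`ρ^*` is the contragredient of `ρ`) have
dimension `N` over `E'`, and in bases `u`, `v` the determinant of the pairing `ρ^* ⊗ W × ρ ⊗ V → ℂ`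
defined by the pairing `b` of `V` and `W` is `D τ`, for all embeddings `τ` of `E'`. -/
def IsDet [DecidableEq r] (a : Γ →* Module.End ℚ V) (a' : Γ →* Module.End ℚ W) (b : V →+ W →+ ℝ)
    (ρ : Γ →* Matrix r r E') (N : ℕ) (D : (E' →+* ℂ) → ℂ) : Prop :=
  ∃ (u : Fin N → r → E' ⊗[ℚ] V) (v : Fin N → r → E' ⊗[ℚ] W), IsBasis (IsFixed a ρ) u ∧
    IsBasis (IsFixed a' fun γ => (ρ γ⁻¹)ᵀ) v ∧ ∀ τ : E' →+* ℂ,
      ∃ P : E' ⊗[ℚ] V →+ E' ⊗[ℚ] W →+ ℂ,
        (∀ x t y w, P (x ⊗ₜ t) (y ⊗ₜ w) = τ x * τ y * b t w) ∧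
        D τ = (Matrix.of fun i j => ∑ l, P (u i l) (v j l)).det

end

/-! ### curves -/

/-- complex conjugation -/
noncomputable def cc : ℂ →ₐ[ℚ] ℂ := (starRingEnd ℂ).toRatAlgHom

section

variable {A : Type} [Field A] [CharZero A]

/-- the embeddings of the field `K` in `ℂ` -/
abbrev Emb (K : IntermediateField ℚ A) : Type := @AlgHom ℚ K ℂ _ _ _ K.algebra' _

/-- an automorphism of `A`, as an element of the Galois group of `A` over `k` -/
abbrev aut {k : IntermediateField ℚ A} (γ : k.fixingSubgroup) : A →ₐ[ℚ] A := (γ : A ≃ₐ[ℚ] A)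

/-- **Curves.** A smooth projective geometrically irreducible curve `C` of genus `g` over the number
field `k`, as far as it is used:

* the `λ`-adic realizations (`H^1` of `C`, of rank `2 g`), with an inertia group and a geometric
  Frobenius element for every finite place of `k`;
* the rational vector space `H = H^2_M(C_A, ℚ(2))_ℤ`, the union of the spaces `H^2_M(C_K, ℚ(2))_ℤ` for
  the finite extensions `K` of `k`, with the action of the Galois group
  (`H^2_M(C_K, ℚ(2))_ℤ` consists of the elements fixed by the Galois group of `A` over `K`);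
* the rational vector space `H₁ = H_1(C(ℂ), ℚ)`, the direct sum of the spaces
  `part σ = H_1(C_σ(ℂ), ℚ)` of dimension `2 g` for the embeddings `σ` of `k`, and the complex
  conjugation `conj = F_∞` of `H₁`;
* for every embedding `x` of `A` the regulator `reg x : H × H₁ → ℝ`, where `reg x ξ t` for
  `t ∈ part σ`, `σ = x|k`, is the regulator of `ξ^x` on the cycle `t` of `C_σ(ℂ)`. -/
structure Curve (k : IntermediateField ℚ A) (g : ℕ) (H H₁ : Type) [AddCommGroup H] [Module ℚ H]
    [AddCommGroup H₁] [Module ℚ H₁] extends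
    Realizations k.fixingSubgroup ℚ (2 * g) (HeightOneSpectrum (𝓞 k)) where
  isFrob : ∀ v, IsInertiaFrobenius k v (inertia v) (frob v)
  norm_eq : ∀ v, norm v = Nat.card (𝓞 k ⧸ v.asIdeal)
  act : k.fixingSubgroup →* Module.End ℚ H
  act_finite : ∀ ξ : H, ∃ K : IntermediateField ℚ A, FiniteDimensional ℚ K ∧
    ∀ γ : k.fixingSubgroup, (γ : A ≃ₐ[ℚ] A) ∈ K.fixingSubgroup → act γ ξ = ξ
  part : Emb k → Submodule ℚ H₁
  part_indep : iSupIndep part
  part_sup : ⨆ σ, part σ = ⊤
  finrank_part : ∀ σ, finrank ℚ (part σ) = 2 * g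
  conj : H₁ →ₗ[ℚ] H₁
  conj_part : ∀ σ, ∀ t ∈ part σ, conj t ∈ part (cc.comp σ)
  conj_conj : ∀ t, conj (conj t) = t
  reg : (A →ₐ[ℚ] ℂ) → H →+ H₁ →+ ℝ
  reg_act : ∀ x γ ξ t, reg x (act γ ξ) t = reg (x.comp (aut γ)) ξ t
  reg_conj : ∀ x ξ t, reg (cc.comp x) ξ (conj t) = -reg x ξ t

variable {k : IntermediateField ℚ A} {g : ℕ} {H H₁ : Type} [AddCommGroup H] [Module ℚ H]
  [AddCommGroup H₁] [Module ℚ H₁] (C : Curve k g H H₁)

/-- The space of the families `t` of cycles `t x` of `C_σ(ℂ)`, `σ = x|k`, for the embeddings `x` of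
`A`, in the minus part: `F_∞ (t x) = - t (conjugate of x)` (these families form a subspace). The
families fixed by the Galois group of `A` over `K` are the elements of `H_1(C_K(ℂ), ℚ)^-` (`t x`
depends only on the embedding `x|K` of `K`). -/
def Curve.cycles : Submodule ℚ ((A →ₐ[ℚ] ℂ) → H₁) :=
  Submodule.span ℚ {t | ∀ x, t x ∈ C.part (x.comp k.val) ∧ C.conj (t x) = -t (cc.comp x)}

variable [IsAlgClosed A] [Algebra.IsAlgebraic ℚ A]

theorem exists_extend (k : IntermediateField ℚ A) (σ : Emb k) :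
    ∃ x : A →ₐ[ℚ] ℂ, x.comp k.val = σ := by
  have h1 : Algebra.IsAlgebraic k A := Algebra.IsAlgebraic.tower_top (K := ℚ) k
  let _ : Algebra k ℂ := (σ : k →+* ℂ).toAlgebra
  let j : A →ₐ[k] ℂ := IsAlgClosed.lift
  refine ⟨(j : A →+* ℂ).toRatAlgHom, ?_⟩
  ext y
  exact j.commutes y

/-- an embedding of `A` that extends the embedding `σ` of `k` -/
noncomputable def extend (σ : Emb k) : A →ₐ[ℚ] ℂ := (exists_extend k σ).choose

variable [FiniteDimensional ℚ k]

section

variable {E' : Type} [Field E'] [Algebra ℚ E'] {r : Type} [Fintype r] [DecidableEq r]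

/-- **The determinant of the regulator on `C ⊗ ρ`.** Let `V` be the space of the families of cycles (`ι t`
is the family `t`). The determinant `D τ` is the one of the pairing of the invariants on `ρ ⊗ V` and
on `ρ^* ⊗ H` for

* the action `a` of the Galois group on the families, `(γ t) x = t (x γ)`;
* the regulator `b t ξ`, the sum of `reg x ξ (t x)` over the embeddings `σ` of `k`, `x` an extension of
  `σ` to `A` (by the invariance `reg_act` the pairing of the invariants does not depend on `x`). -/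
def Curve.IsRegDet {V : Type} [AddCommGroup V] [Module ℚ V] (ι : V → (A →ₐ[ℚ] ℂ) → H₁)
    (ρ : k.fixingSubgroup →* Matrix r r E') (N : ℕ) (D : (E' →+* ℂ) → ℂ) : Prop :=
  ∃ (a : k.fixingSubgroup →* Module.End ℚ V) (b : V →+ H →+ ℝ),
    (∀ γ t x, ι (a γ t) x = ι t (x.comp (aut γ))) ∧
    (∀ t ξ, b t ξ = ∑ σ : Emb k, C.reg (extend σ) ξ (ι t (extend σ))) ∧ IsDet a C.act b ρ N D

/-- `R τ` is the quotient of the leading coefficient of the L-function of `C ⊗ ρ` at `s = 0` for the
embedding `τ` of the coefficients, by the determinant of the regulator on `C ⊗ ρ`. It is included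
that, with `N = g [k : ℚ] dim ρ`,

* (Q1) the parts of `E' ⊗ H_1^-` and of `E' ⊗ H^2_M(ℚ(2))_ℤ` that belong to `C ⊗ ρ` (the invariants
  of the Galois group on `ρ ⊗ H_1^-` and on `ρ^* ⊗ H^2_M(ℚ(2))_ℤ`, `ρ^*` the contragredient of `ρ`)
  have dimension `N` over `E'`, and the regulator is nondegenerate: the determinant `D τ` of its
  matrix in bases is not zero, for all embeddings `τ`;
* the order of the L-function at `s = 0` is `N`: `L(s) / s ^ N` has a limit `c ≠ 0`. -/
def Curve.IsQuotient (ρ : k.fixingSubgroup →* Matrix r r E') (R : (E' →+* ℂ) → ℂ) : Prop :=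
  ∃ L D, IsLFunction C.toRealizations ρ L ∧
    C.IsRegDet (fun t : C.cycles => t.1) ρ (g * finrank ℚ k * Fintype.card r) D ∧
    ∀ τ : E' →+* ℂ, D τ ≠ 0 ∧ ∃ c : ℂ, c ≠ 0 ∧
      Tendsto (fun s => L τ s / s ^ (g * finrank ℚ k * Fintype.card r)) (𝓝[≠] 0) (𝓝 c) ∧
      R τ = c / D τ

/-- **Beilinson's conjectures Q1 and Q2 for `C ⊗ ρ`**: the leading coefficient is the determinant of
the regulator up to an element of `E'^×` (the same element for all embeddings of `E'`) -/
def Curve.Beilinson (ρ : k.fixingSubgroup →* Matrix r r E') : Prop :=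
  ∃ e : E', e ≠ 0 ∧ C.IsQuotient ρ (fun τ => τ e)

end

section

variable (K : IntermediateField ℚ A)

/-- the vectors `u i` are a basis of the rational vector space of the vectors with the property `P` -/
def IsRatBasis {V : Type} [AddCommGroup V] [Module ℚ V] (P : V → Prop) {N : ℕ} (u : Fin N → V) :
    Prop :=
  ∀ x, P x ↔ ∃! c : Fin N → ℚ, x = ∑ i, c i • u i

/-- `ξ` is in `H^2_M(C_K, ℚ(2))_ℤ`: it is fixed by the Galois group of `A` over `K` -/
def Curve.IsOver (ξ : H) : Prop :=
  ∀ γ : k.fixingSubgroup, (γ : A ≃ₐ[ℚ] A) ∈ K.fixingSubgroup → C.act γ ξ = ξ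

variable {K} (h : k ≤ K)

/-- `t` is in `H_1(C_K(ℂ), ℚ)^-`: it is a family of cycles `t σ` of `C_{σ|k}(ℂ)`, for the embeddings
`σ` of `K`, with `F_∞ (t σ) = - t (conjugate of σ)` -/
def Curve.IsCycle (t : Emb K → H₁) : Prop :=
  ∀ σ, t σ ∈ C.part (σ.comp (IntermediateField.inclusion h)) ∧ C.conj (t σ) = -t (cc.comp σ)

/-- **Beilinson's conjectures Q1 and Q2 for the curve `C_K`**: `H^2_M(C_K, ℚ(2))_ℤ` and
`H_1(C_K(ℂ), ℚ)^-` have dimension `N = g [K : ℚ]` over `ℚ` and the determinant `D` of the regulator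
(the sum over the embeddings `σ` of `K` of the regulators on `t σ`) is not zero (Q1);
`L(C_K, s) / s ^ N` tends to `q D` for `s → 0` with a rational number `q ≠ 0` (Q2). The
L-function of `C_K` is the one of `C ⊗ ρ`, `ρ` the permutation representation on the embeddings of `K`
over `k`. -/
def Curve.Classical [FiniteDimensional ℚ K] [Fintype (k.fixingSubgroup ⧸ gal k K)]
    [DecidableEq (k.fixingSubgroup ⧸ gal k K)] : Prop :=
  ∃ (L : ℂ → ℂ) (ξ : Fin (g * finrank ℚ K) → H) (t : Fin (g * finrank ℚ K) → Emb K → H₁) (D : ℝ),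
    IsLFunction C.toRealizations (induced (gal k K) (1 : gal k K →* ℚˣ)) (fun _ => L) ∧
    IsRatBasis (C.IsOver K) ξ ∧ IsRatBasis (C.IsCycle h) t ∧
    D = (Matrix.of fun i j => ∑ σ : Emb K, C.reg (extend σ) (ξ i) (t j σ)).det ∧ D ≠ 0 ∧
    ∃ q : ℚ, q ≠ 0 ∧
      Tendsto (fun s => L s / s ^ (g * finrank ℚ K)) (𝓝[≠] 0) (𝓝 ((q : ℂ) * D))

end

/-- **The hypothesis: the quotient does not change under twists by characters.** For all the fields `K`
between `k` and `Ω` such that the Galois group of `Ω` over `K` is nilpotent, and all characters `ψ` of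
this Galois group with values in number fields `E'`, the L-functions of `C_K ⊗ ψ` and `C_K`, that is
of `C ⊗ Ind ψ` and `C ⊗ Ind 1`, exist, Q1 holds, the orders at `s = 0` are the expected ones, and
the quotients of the leading coefficients by the regulators are equal in `(E' ⊗ ℂ)^× / E'^×`. -/
def Curve.TwistInvariance (Ω : IntermediateField ℚ A) [(gal k Ω).Normal] : Prop :=
  ∀ (E' : Type) [Field E'] [NumberField E'] [Algebra ℚ E'] (K : IntermediateField ℚ A),
    k ≤ K → K ≤ Ω → Group.IsNilpotent ((gal k K).map (QuotientGroup.mk' (gal k Ω))) →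
    ∀ [Fintype (k.fixingSubgroup ⧸ gal k K)] [DecidableEq (k.fixingSubgroup ⧸ gal k K)]
      (ψ : gal k K →* E'ˣ), (∀ γ : gal k K, ((γ : k.fixingSubgroup) : A ≃ₐ[ℚ] A) ∈ Ω.fixingSubgroup →
        ψ γ = 1) →
      HasL C.toRealizations (induced (gal k K) ψ) ∧
      ∃ R R₁ : (E' →+* ℂ) → ℂ, C.IsQuotient (induced (gal k K) ψ) R ∧
        C.IsQuotient (induced (gal k K) (1 : gal k K →* E'ˣ)) R₁ ∧ Same R R₁

/-- **The conclusion**: for all representations `ρ` of the Galois group of `Ω` over `k` with values in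
number fields `E'`, the L-functions of `C ⊗ ρ` and `C` exist, Q1 holds, the orders at `s = 0` are the
expected ones, and the quotient for `C ⊗ ρ` is the one for `C` to the power `dim ρ`, in
`(E' ⊗ ℂ)^× / E'^×`. -/
def Curve.Powers (Ω : IntermediateField ℚ A) : Prop :=
  ∀ (E' : Type) [Field E'] [NumberField E'] [Algebra ℚ E'] (r : Type) [Fintype r] [DecidableEq r]
    (ρ : k.fixingSubgroup →* Matrix r r E'), TrivialOn Ω ρ → HasL C.toRealizations ρ ∧
      ∃ R R₁ : (E' →+* ℂ) → ℂ, C.IsQuotient ρ R ∧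
        C.IsQuotient (1 : k.fixingSubgroup →* Matrix (Fin 1) (Fin 1) E') R₁ ∧
        Same R (fun τ => R₁ τ ^ Fintype.card r)

/-- **Beilinson's conjectures for some twists**: for every prime number `ℓ` there are a field `K`
between `k` and `Ω` whose degree over `k` is prime to `ℓ` and a character `ψ` of the Galois group of
`Ω` over `K` such that Q1 and Q2 hold for `C_K ⊗ ψ` (for example `K = k` and `ψ = 1` for all `ℓ`,
if Q1 and Q2 hold for `C`) -/
def Curve.SomeBeilinson (Ω : IntermediateField ℚ A) : Prop :=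
  ∀ l : ℕ, l.Prime → ∃ (E' : Type) (_ : Field E') (_ : NumberField E') (_ : Algebra ℚ E')
    (K : IntermediateField ℚ A) (_ : Fintype (k.fixingSubgroup ⧸ gal k K))
    (_ : DecidableEq (k.fixingSubgroup ⧸ gal k K)) (ψ : gal k K →* E'ˣ), k ≤ K ∧ K ≤ Ω ∧
    ¬ l ∣ IntermediateField.relfinrank k K ∧
    (∀ γ : gal k K, ((γ : k.fixingSubgroup) : A ≃ₐ[ℚ] A) ∈ Ω.fixingSubgroup → ψ γ = 1) ∧
    C.Beilinson (induced (gal k K) ψ)

end

end Pool.Agent.Helper51K9.BK
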