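import Pool.Agent.Helper51K9.BK.Main
import Pool.Agent.Helper51K9.BK.Cls2

/-!
# The conclusion in classical form
-/

set_option autoImplicit false
set_option linter.unusedSectionVars false

namespace Pool.Agent.Helper51K9.BK

open Matrix Filter Topology NumberField IsDedekindDomain TensorProduct Module TI

variable {A : Type} [Field A] [CharZero A] [IsAlgClosed A] [Algebra.IsAlgebraic ℚ A]
  {k : IntermediateField ℚ A} {g : ℕ} {H H₁ : Type} [AddCommGroup H] [Module ℚ H]
  [AddCommGroup H₁] [Module ℚ H₁] (C : Curve k g H H₁) [FiniteDimensional ℚ k]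
  (Ω : IntermediateField ℚ A) [FiniteDimensional ℚ Ω] (hΩ : k ≤ Ω) [(gal k Ω).Normal]

include hΩ

theorem some_of_classical (h : ∀ [Fintype (k.fixingSubgroup ⧸ gal k k)]
    [DecidableEq (k.fixingSubgroup ⧸ gal k k)], C.Classical (le_refl k)) : C.SomeBeilinson Ω := by
  classical
  intro l hl
  have h1 : Finite (k.fixingSubgroup ⧸ gal k k) := finite_quot k k (le_refl k)
  let i1 : Fintype (k.fixingSubgroup ⧸ gal k k) := Fintype.ofFinite _
  refine ⟨ℚ, inferInstance, inferInstance, inferInstance, k, i1, inferInstance, 1, le_refl k, hΩ,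
    ?_, fun γ _ => rfl, (classical_iff C (le_refl k)).1 h⟩
  have h2 := index_gal k k (le_refl k)
  have h3 : gal k k = ⊤ := by
    ext γ
    simp
  rw [h3, Subgroup.index_top] at h2
  rw [← h2]
  exact hl.one_lt.ne' ∘ Nat.dvd_one.1

theorem classical_all (h : C.TwistInvariance Ω) (hS : C.SomeBeilinson Ω) (K : IntermediateField ℚ A)
    (hK : k ≤ K) (hKΩ : K ≤ Ω) [FiniteDimensional ℚ K] [Fintype (k.fixingSubgroup ⧸ gal k K)]
    [DecidableEq (k.fixingSubgroup ⧸ gal k K)] : C.Classical hK := by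
  refine (classical_iff C hK).2 (all_beilinson C Ω hΩ h hS ℚ _ _ fun γ hγ => ?_)
  exact induced_trivial (gal k Ω) (gal k K) (le_gal Ω hKΩ) 1 (fun _ _ => rfl) γ
    (Subgroup.mem_subgroupOf.2 hγ)

end Pool.Agent.Helper51K9.BK
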