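import Pool.Agent.Helper51K9.BK.Lin

/-!
# Curves: the spaces of cycles and the regulators as linear maps
-/

set_option autoImplicit false
set_option linter.unusedSectionVars false

namespace Pool.Agent.Helper51K9.BK

open Matrix Filter Topology NumberField IsDedekindDomain TensorProduct Module TI

/-! ### bases -/

section

variable {E' : Type} [Field E'] {M : Type} [AddCommGroup M] [Module E' M] {N : ℕ}

theorem exists_basis (S : Submodule E' M) (u : Fin N → M)
    (h : ∀ x, x ∈ S ↔ ∃! c : Fin N → E', x = ∑ i, c i • u i) :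
    ∃ b : Basis (Fin N) E' S, ∀ i, (b i : M) = u i := by
  have h0 : ∀ c : Fin N → E', ∑ i, c i • u i = 0 → c = 0 := by
    intro c hc
    obtain ⟨c₀, -, h1⟩ := (h 0).1 S.zero_mem
    rw [h1 c hc.symm, h1 0 (by simp)]
  have hli : LinearIndependent E' u :=
    Fintype.linearIndependent_iff.2 fun c hc i => congrFun (h0 c hc) i
  have hu : ∀ i, u i ∈ S := by
    intro i
    rw [h]
    refine ⟨Pi.single i 1, ?_, fun c hc => ?_⟩
    · simp only
      rw [Finset.sum_eq_single i]
      · rw [Pi.single_eq_same, one_smul]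
      · intro j _ hj
        rw [Pi.single_eq_of_ne hj, zero_smul]
      · intro hi
        exact absurd (Finset.mem_univ _) hi
    · have h2 : ∑ j, (c - Pi.single i 1 : Fin N → E') j • u j = 0 := by
        simp only [Pi.sub_apply, sub_smul, Finset.sum_sub_distrib]
        rw [← hc, Finset.sum_eq_single i]
        · rw [Pi.single_eq_same, one_smul, sub_self]
        · intro j _ hj
          rw [Pi.single_eq_of_ne hj, zero_smul]
        · intro hi
          exact absurd (Finset.mem_univ _) hi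
      exact sub_eq_zero.1 (h0 _ h2)
  let u' : Fin N → S := fun i => ⟨u i, hu i⟩
  have hli' : LinearIndependent E' u' := LinearIndependent.of_comp S.subtype hli
  refine ⟨Basis.mk hli' ?_, fun i => ?_⟩
  · rintro x -
    obtain ⟨c, hc, -⟩ := (h x.1).1 x.2
    have h3 : x = ∑ i, c i • u' i := by
      apply Subtype.ext
      rw [hc, AddSubmonoidClass.coe_finset_sum]
      rfl
    rw [h3]
    exact Submodule.sum_mem _ fun i _ => Submodule.smul_mem _ _ (Submodule.subset_span ⟨i, rfl⟩)
  · rw [Basis.mk_apply]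

theorem basis_iff (S : Submodule E' M) (b : Basis (Fin N) E' S) (x : M) :
    x ∈ S ↔ ∃! c : Fin N → E', x = ∑ i, c i • (b i : M) := by
  constructor
  · intro hx
    refine ⟨b.repr ⟨x, hx⟩, ?_, fun c hc => ?_⟩
    · have h1 := congrArg (Subtype.val) (b.sum_repr ⟨x, hx⟩)
      rw [AddSubmonoidClass.coe_finset_sum] at h1
      exact h1.symm
    · have h2 : (⟨x, hx⟩ : S) = ∑ i, c i • b i := by
        apply Subtype.ext
        rw [AddSubmonoidClass.coe_finset_sum]
        exact hc
      rw [h2, b.repr_sum_self]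
  · rintro ⟨c, hc, -⟩
    rw [hc]
    exact S.sum_mem fun i _ => S.smul_mem _ (b i).2

end

/-! ### the determinant -/

section

variable {Γ : Type} [Group Γ] {E' : Type} [Field E'] [Algebra ℚ E'] {r : Type} [Fintype r]
  [DecidableEq r] {V W : Type} [AddCommGroup V] [Module ℚ V] [AddCommGroup W] [Module ℚ W]

/-- an additive pairing of rational vector spaces as a linear pairing -/
noncomputable def toLin (b : V →+ W →+ ℝ) : V →ₗ[ℚ] W →ₗ[ℚ] ℝ :=
  LinearMap.mk₂ ℚ (fun v w => b v w) (fun v v' w => by rw [map_add, AddMonoidHom.add_apply])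
    (fun c v w => by
      have := map_rat_smul ((AddMonoidHom.eval w : (W →+ ℝ) →+ ℝ).comp b) c v
      exact this)
    (fun v w w' => by rw [map_add]) (fun c v w => map_rat_smul (b v) c w)

theorem isBasis_iff (a : Γ →* Module.End ℚ V) (ρ : Γ →* Matrix r r E') {N : ℕ}
    (u : Fin N → r → E' ⊗[ℚ] V) : IsBasis (IsFixed a ρ) u ↔
    ∃ b : Basis (Fin N) E' (invariants a ρ), ∀ i, (b i : r → E' ⊗[ℚ] V) = u i := by
  have key : ∀ (x : r → E' ⊗[ℚ] V) (u : Fin N → r → E' ⊗[ℚ] V) (c : Fin N → E'),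
      (∀ l, x l = ∑ i, c i • u i l) ↔ x = ∑ i, c i • u i := by
    intro x u c
    rw [funext_iff]
    refine forall_congr' fun l => ?_
    rw [Finset.sum_apply]
    rfl
  constructor
  · intro h
    refine exists_basis _ u fun x => ?_
    rw [← show IsFixed a ρ x ↔ x ∈ invariants a ρ from Iff.rfl, h x]
    simp only [key]
  · rintro ⟨b, hb⟩ x
    rw [show IsFixed a ρ x ↔ x ∈ invariants a ρ from Iff.rfl, basis_iff _ b x]
    simp only [key, hb]

theorem pairing_unique (b : V →+ W →+ ℝ) (τ : E' →+* ℂ) (P : E' ⊗[ℚ] V →+ E' ⊗[ℚ] W →+ ℂ)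
    (h : ∀ x t y w, P (x ⊗ₜ t) (y ⊗ₜ w) = τ x * τ y * b t w) (x : E' ⊗[ℚ] V) (y : E' ⊗[ℚ] W) :
    P x y = pairing (toLin b) τ x y := by
  induction x with
  | zero => simp
  | add x x' hx hx' => rw [map_add, map_add, AddMonoidHom.add_apply, LinearMap.add_apply, hx, hx']
  | tmul e v =>
    induction y with
    | zero => simp
    | add y y' hy hy' => rw [map_add, map_add, hy, hy']
    | tmul f w =>
      rw [h, pairing_tmul]
      rfl

theorem isDet_iff (a : Γ →* Module.End ℚ V) (a' : Γ →* Module.End ℚ W) (b : V →+ W →+ ℝ)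
    (ρ : Γ →* Matrix r r E') (N : ℕ) (D : (E' →+* ℂ) → ℂ) : IsDet a a' b ρ N D ↔
    ∃ (u : Basis (Fin N) E' (invariants a ρ)) (v : Basis (Fin N) E'
      (invariants a' (contragredient ρ))), ∀ τ : E' →+* ℂ,
        D τ = (gram (toLin b) τ (fun i => (u i : r → E' ⊗[ℚ] V))
          (fun i => (v i : r → E' ⊗[ℚ] W))).det := by
  constructor
  · rintro ⟨u, v, hu, hv, h⟩
    obtain ⟨u', hu'⟩ := (isBasis_iff a ρ u).1 hu
    obtain ⟨v', hv'⟩ := (isBasis_iff a' (contragredient ρ) v).1 hv
    refine ⟨u', v', fun τ => ?_⟩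
    obtain ⟨P, hP, hD⟩ := h τ
    rw [hD]
    congr 1
    ext i j
    simp only [gram, vpair, Matrix.of_apply, hu', hv', pairing_unique b τ P hP]
  · rintro ⟨u, v, h⟩
    refine ⟨fun i => u i, fun i => v i, (isBasis_iff a ρ _).2 ⟨u, fun _ => rfl⟩,
      (isBasis_iff a' (contragredient ρ) _).2 ⟨v, fun _ => rfl⟩, fun τ => ?_⟩
    refine ⟨AddMonoidHom.mk' (fun x => (pairing (toLin b) τ x).toAddMonoidHom) fun x x' => ?_,
      fun x t y w => ?_, ?_⟩
    · ext y
      simp
    · exact pairing_tmul _ _ _ _ _ _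
    · rw [h τ]
      rfl

end

/-! ### the curve -/

section

variable {A : Type} [Field A] [CharZero A] {k : IntermediateField ℚ A} {g : ℕ} {H H₁ : Type}
  [AddCommGroup H] [Module ℚ H] [AddCommGroup H₁] [Module ℚ H₁] (C : Curve k g H H₁)

theorem mem_cycles {t : (A →ₐ[ℚ] ℂ) → H₁} :
    t ∈ C.cycles ↔ ∀ x, t x ∈ C.part (x.comp k.val) ∧ C.conj (t x) = -t (cc.comp x) := by
  refine ⟨fun h => ?_, fun h => Submodule.subset_span h⟩
  induction h using Submodule.span_induction with
  | mem t ht => exact ht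
  | zero =>
    intro x
    refine ⟨(C.part (x.comp k.val)).zero_mem, ?_⟩
    simp only [Pi.zero_apply, map_zero, neg_zero]
  | add t u _ _ ht hu =>
    intro x
    refine ⟨(C.part (x.comp k.val)).add_mem (ht x).1 (hu x).1, ?_⟩
    simp only [Pi.add_apply, map_add, (ht x).2, (hu x).2, neg_add]
  | smul q t _ ht =>
    intro x
    refine ⟨(C.part (x.comp k.val)).smul_mem q (ht x).1, ?_⟩
    simp only [Pi.smul_apply, map_smul, (ht x).2, smul_neg]

theorem comp_val (x : A →ₐ[ℚ] ℂ) (γ : k.fixingSubgroup) :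
    (x.comp (aut γ)).comp k.val = x.comp k.val := by
  ext y
  change x ((γ : A ≃ₐ[ℚ] A) (y : A)) = x (y : A)
  rw [(IntermediateField.mem_fixingSubgroup_iff k _).1 γ.2 _ y.2]

/-- the action of the Galois group on the families of cycles: `(γ t) x = t (x γ)` -/
noncomputable def Curve.cycAct : k.fixingSubgroup →* Module.End ℚ C.cycles where
  toFun γ :=
    { toFun := fun t => ⟨fun x => t.1 (x.comp (aut γ)), (mem_cycles C).2
        fun x => ⟨comp_val x γ ▸ ((mem_cycles C).1 t.2 (x.comp (aut γ))).1,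
          ((mem_cycles C).1 t.2 (x.comp (aut γ))).2⟩⟩
      map_add' := fun _ _ => rfl
      map_smul' := fun _ _ => rfl }
  map_one' := rfl
  map_mul' _ _ := rfl

variable [IsAlgClosed A] [Algebra.IsAlgebraic ℚ A]

/-- the regulator pairing -/
noncomputable def Curve.regulator [FiniteDimensional ℚ k] : C.cycles →ₗ[ℚ] H →ₗ[ℚ] ℝ :=
  LinearMap.mk₂ ℚ (fun t ξ => ∑ σ : Emb k, C.reg (extend σ) ξ (t.1 (extend σ)))
    (fun t t' ξ => by
      simp only [Submodule.coe_add, Pi.add_apply, map_add, Finset.sum_add_distrib])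
    (fun c t ξ => by
      simp only [Submodule.coe_smul, Pi.smul_apply, Finset.smul_sum]
      exact Finset.sum_congr rfl fun σ _ => map_rat_smul (C.reg (extend σ) ξ) c _)
    (fun t ξ ξ' => by
      simp only [map_add, AddMonoidHom.add_apply, Finset.sum_add_distrib])
    (fun c t ξ => by
      simp only [Finset.smul_sum]
      exact Finset.sum_congr rfl fun σ _ => map_rat_smul
        ((AddMonoidHom.eval (t.1 (extend σ)) : (H₁ →+ ℝ) →+ ℝ).comp (C.reg (extend σ))) c ξ)

variable [FiniteDimensional ℚ k]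

theorem regulator_apply (t : C.cycles) (ξ : H) :
    C.regulator t ξ = ∑ σ : Emb k, C.reg (extend σ) ξ (t.1 (extend σ)) := rfl

section

variable {E' : Type} [Field E'] [Algebra ℚ E'] {r : Type} [Fintype r] [DecidableEq r]

theorem isRegDet_iff (ρ : k.fixingSubgroup →* Matrix r r E') (N : ℕ) (D : (E' →+* ℂ) → ℂ) :
    C.IsRegDet (fun t : C.cycles => t.1) ρ N D ↔
    ∃ (u : Basis (Fin N) E' (invariants C.cycAct ρ)) (v : Basis (Fin N) E'
      (invariants C.act (contragredient ρ))), ∀ τ : E' →+* ℂ,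
        D τ = (gram C.regulator τ (fun i => (u i : r → E' ⊗[ℚ] C.cycles))
          (fun i => (v i : r → E' ⊗[ℚ] H))).det := by
  constructor
  · rintro ⟨a, b, ha, hb, h⟩
    have h1 : a = C.cycAct := by
      apply MonoidHom.ext
      intro γ
      apply LinearMap.ext
      intro t
      apply Subtype.ext
      funext x
      exact ha γ t x
    have h2 : toLin b = C.regulator := by
      apply LinearMap.ext
      intro t
      apply LinearMap.ext
      intro ξ
      exact hb t ξ
    subst h1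
    rw [isDet_iff, h2] at h
    exact h
  · intro h
    let b : C.cycles →+ H →+ ℝ :=
      AddMonoidHom.mk' (fun x => (C.regulator x).toAddMonoidHom) fun x x' => by
        ext y
        simp
    refine ⟨C.cycAct, b, fun _ _ _ => rfl, fun _ _ => rfl, ?_⟩
    have h2 : toLin b = C.regulator := by
      apply LinearMap.ext
      intro t
      apply LinearMap.ext
      intro ξ
      rfl
    rw [isDet_iff, h2]
    exact h

end

section

variable (K : IntermediateField ℚ A)

/-- `H^2_M(C_K, ℚ(2))_ℤ`: the elements of `H` fixed by the Galois group of `A` over `K` -/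
def Curve.HOf : Submodule ℚ H where
  carrier := {ξ | C.IsOver K ξ}
  add_mem' {ξ η} hξ hη γ hγ := by rw [map_add, hξ γ hγ, hη γ hγ]
  zero_mem' γ _ := map_zero _
  smul_mem' q ξ hξ γ hγ := by rw [map_smul, hξ γ hγ]

variable {K} (h : k ≤ K)

/-- `H_1(C_K(ℂ), ℚ)^-` -/
def Curve.cyclesOf : Submodule ℚ (Emb K → H₁) where
  carrier := {t | C.IsCycle h t}
  add_mem' {t u} ht hu σ := by
    refine ⟨(C.part (σ.comp (IntermediateField.inclusion h))).add_mem (ht σ).1 (hu σ).1, ?_⟩
    simp only [Pi.add_apply, map_add, (ht σ).2, (hu σ).2, neg_add]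
  zero_mem' σ := by
    refine ⟨(C.part (σ.comp (IntermediateField.inclusion h))).zero_mem, ?_⟩
    simp only [Pi.zero_apply, map_zero, neg_zero]
  smul_mem' q t ht σ := by
    refine ⟨(C.part (σ.comp (IntermediateField.inclusion h))).smul_mem q (ht σ).1, ?_⟩
    simp only [Pi.smul_apply, map_smul, (ht σ).2, smul_neg]

/-- the regulator of `C_K`: the sum over the embeddings `σ` of `K` of the regulators on `t σ` -/
noncomputable def Curve.regulatorOf [FiniteDimensional ℚ K] (ξ : C.HOf K) (t : C.cyclesOf h) : ℝ :=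
  ∑ σ : Emb K, C.reg (extend σ) ξ.1 (t.1 σ)

/-- the classical form in terms of bases of subspaces -/
def Curve.Classical' [FiniteDimensional ℚ K] [Fintype (k.fixingSubgroup ⧸ gal k K)]
    [DecidableEq (k.fixingSubgroup ⧸ gal k K)] : Prop :=
  ∃ L : ℂ → ℂ, IsLFunction C.toRealizations (induced (gal k K) (1 : gal k K →* ℚˣ)) (fun _ => L) ∧
    ∃ (ξ : Basis (Fin (g * finrank ℚ K)) ℚ (C.HOf K))
      (t : Basis (Fin (g * finrank ℚ K)) ℚ (C.cyclesOf h)) (D : ℝ),
      D = (Matrix.of fun i j => C.regulatorOf h (ξ i) (t j)).det ∧ D ≠ 0 ∧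
        ∃ q : ℚ, q ≠ 0 ∧
          Tendsto (fun s => L s / s ^ (g * finrank ℚ K)) (𝓝[≠] 0) (𝓝 ((q : ℂ) * D))

theorem classical_iff' [FiniteDimensional ℚ K] [Fintype (k.fixingSubgroup ⧸ gal k K)]
    [DecidableEq (k.fixingSubgroup ⧸ gal k K)] : C.Classical h ↔ C.Classical' h := by
  constructor
  · rintro ⟨L, ξ, t, D, hL, hξ, ht, hD, h1⟩
    obtain ⟨ξ', hξ'⟩ := exists_basis (C.HOf K) ξ hξ
    obtain ⟨t', ht'⟩ := exists_basis (C.cyclesOf h) t ht
    refine ⟨L, hL, ξ', t', D, ?_, h1⟩
    rw [hD]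
    congr 1
    ext i j
    simp only [Matrix.of_apply, Curve.regulatorOf, hξ', ht']
  · rintro ⟨L, hL, ξ, t, D, hD, h1⟩
    exact ⟨L, fun i => ξ i, fun i => t i, D, hL, basis_iff _ ξ, basis_iff _ t, hD, h1⟩

end

end

end Pool.Agent.Helper51K9.BK
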