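import Pool.Agent.Helper51K9.BK.Lin
import Pool.Agent.Helper51K9.TI.Fac

/-!
# Functoriality of the invariants and of the pairing
-/

set_option autoImplicit false
set_option linter.unusedSectionVars false

namespace Pool.Agent.Helper51K9.BK

open Matrix TensorProduct Module

section

variable {E' : Type} [Field E'] [Algebra ℚ E'] {V W : Type} [AddCommGroup V] [Module ℚ V]
  [AddCommGroup W] [Module ℚ W] {r r' r'' : Type} [Fintype r] [Fintype r'] [Fintype r'']

/-- a matrix applied to a vector -/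
def app (A : Matrix r r' E') : (r' → E' ⊗[ℚ] V) →ₗ[E'] (r → E' ⊗[ℚ] V) where
  toFun v i := ∑ j, A i j • v j
  map_add' v w := by
    ext i
    simp only [Pi.add_apply, smul_add, Finset.sum_add_distrib]
  map_smul' c v := by
    ext i
    simp only [Pi.smul_apply, RingHom.id_apply, Finset.smul_sum]
    exact Finset.sum_congr rfl fun j _ => smul_comm _ _ _

theorem app_apply (A : Matrix r r' E') (v : r' → E' ⊗[ℚ] V) (i : r) :
    app A v i = ∑ j, A i j • v j := rfl

theorem app_mul (A : Matrix r r' E') (B : Matrix r' r'' E') (v : r'' → E' ⊗[ℚ] V) :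
    app (A * B) v = app A (app B v) := by
  ext i
  simp only [app_apply, Matrix.mul_apply, Finset.sum_smul, Finset.smul_sum, mul_smul]
  exact Finset.sum_comm

theorem app_one [DecidableEq r] (v : r → E' ⊗[ℚ] V) : app (1 : Matrix r r E') v = v := by
  ext i
  rw [app_apply, Finset.sum_eq_single i]
  · rw [Matrix.one_apply_eq, one_smul]
  · intro j _ hj
    rw [Matrix.one_apply_ne (Ne.symm hj), zero_smul]
  · intro h
    exact absurd (Finset.mem_univ _) h

/-- an endomorphism applied to the components -/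
def comp (f : Module.End ℚ V) (v : r → E' ⊗[ℚ] V) : r → E' ⊗[ℚ] V := fun i => f.baseChange E' (v i)

theorem comp_app (f : Module.End ℚ V) (A : Matrix r r' E') (v : r' → E' ⊗[ℚ] V) :
    comp f (app A v) = app A (comp f v) := by
  ext i
  simp only [comp, app_apply, map_sum, map_smul]

variable {Γ : Type} [Group Γ] (a : Γ →* Module.End ℚ V) [DecidableEq r] [DecidableEq r']
  {ρ : Γ →* Matrix r r E'} {ρ' : Γ →* Matrix r' r' E'}

theorem mem_inv_iff {v : r → E' ⊗[ℚ] V} :
    v ∈ invariants a ρ ↔ ∀ γ, app (ρ γ) (comp (a γ) v) = v := by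
  rw [mem_invariants]
  exact forall_congr' fun γ => ⟨fun h => funext h, fun h i => congrFun h i⟩

theorem app_mem {A : Matrix r r' E'} (hA : ∀ γ, ρ γ * A = A * ρ' γ) {v : r' → E' ⊗[ℚ] V}
    (hv : v ∈ invariants a ρ') : app A v ∈ invariants a ρ := by
  rw [mem_inv_iff] at hv ⊢
  intro γ
  rw [comp_app, ← app_mul, hA, app_mul, hv]

/-- isomorphic representations -/
noncomputable def isoInv {A : Matrix r r' E'} {B : Matrix r' r E'} (hAB : A * B = 1)
    (hBA : B * A = 1) (hA : ∀ γ, ρ γ * A = A * ρ' γ) : invariants a ρ' ≃ₗ[E'] invariants a ρ :=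
  have hB : ∀ γ, ρ' γ * B = B * ρ γ := fun γ => by
    calc ρ' γ * B = (B * A) * ρ' γ * B := by rw [hBA, Matrix.one_mul]
      _ = B * (A * ρ' γ) * B := by simp only [Matrix.mul_assoc]
      _ = B * (ρ γ * A) * B := by rw [hA]
      _ = B * ρ γ * (A * B) := by simp only [Matrix.mul_assoc]
      _ = B * ρ γ := by rw [hAB, Matrix.mul_one]
  LinearEquiv.ofLinearMap ((app A).restrict fun _ hv => app_mem a hA hv)
    ((app B).restrict fun _ hv => app_mem a hB hv)
    (by
      apply LinearMap.ext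
      intro v
      apply Subtype.ext
      change app A (app B (v : r → E' ⊗[ℚ] V)) = v
      rw [← app_mul, hAB, app_one])
    (by
      apply LinearMap.ext
      intro v
      apply Subtype.ext
      change app B (app A (v : r' → E' ⊗[ℚ] V)) = v
      rw [← app_mul, hBA, app_one])

theorem isoInv_apply {A : Matrix r r' E'} {B : Matrix r' r E'} (hAB : A * B = 1)
    (hBA : B * A = 1) (hA : ∀ γ, ρ γ * A = A * ρ' γ) (v : invariants a ρ') :
    (isoInv a hAB hBA hA v : r → E' ⊗[ℚ] V) = app A (v : r' → E' ⊗[ℚ] V) := rfl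

theorem mem_dsum {v : r ⊕ r' → E' ⊗[ℚ] V} : v ∈ invariants a (TI.dsum ρ ρ') ↔
    (fun i => v (Sum.inl i)) ∈ invariants a ρ ∧ (fun i => v (Sum.inr i)) ∈ invariants a ρ' := by
  simp only [mem_invariants]
  constructor
  · intro h
    refine ⟨fun γ i => ?_, fun γ i => ?_⟩
    · have := h γ (Sum.inl i)
      rw [TI.dsum_apply, Fintype.sum_sum_type] at this
      simpa using this
    · have := h γ (Sum.inr i)
      rw [TI.dsum_apply, Fintype.sum_sum_type] at this
      simpa using this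
  · rintro ⟨h1, h2⟩ γ i
    rw [TI.dsum_apply, Fintype.sum_sum_type]
    rcases i with i | i
    · simpa using h1 γ i
    · simpa using h2 γ i

/-- the invariants of a sum -/
noncomputable def sumInv : (invariants a ρ × invariants a ρ') ≃ₗ[E'] invariants a (TI.dsum ρ ρ') where
  toFun v := ⟨Sum.elim (v.1 : r → E' ⊗[ℚ] V) (v.2 : r' → E' ⊗[ℚ] V),
    (mem_dsum a).2 ⟨v.1.2, v.2.2⟩⟩
  invFun v := (⟨_, ((mem_dsum a).1 v.2).1⟩, ⟨_, ((mem_dsum a).1 v.2).2⟩)
  left_inv v := rfl
  right_inv v := by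
    apply Subtype.ext
    ext i
    rcases i with i | i <;> rfl
  map_add' v w := by
    apply Subtype.ext
    ext i
    rcases i with i | i <;> rfl
  map_smul' c v := by
    apply Subtype.ext
    ext i
    rcases i with i | i <;> rfl

theorem contra_dsum : contragredient (TI.dsum ρ ρ') = TI.dsum (contragredient ρ)
    (contragredient ρ') := by
  ext1 γ
  change (TI.dsum ρ ρ' γ⁻¹)ᵀ = TI.dsum (contragredient ρ) (contragredient ρ') γ
  rw [TI.dsum_apply, TI.dsum_apply, fromBlocks_transpose]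
  rfl

theorem contra_comm {A : Matrix r r' E'} {B : Matrix r' r E'} (hAB : A * B = 1)
    (hBA : B * A = 1) (hA : ∀ γ, ρ γ * A = A * ρ' γ) (γ : Γ) :
    contragredient ρ γ * Bᵀ = Bᵀ * contragredient ρ' γ := by
  change (ρ γ⁻¹)ᵀ * Bᵀ = Bᵀ * (ρ' γ⁻¹)ᵀ
  rw [← transpose_mul, ← transpose_mul]
  congr 1
  calc B * ρ γ⁻¹ = B * ρ γ⁻¹ * (A * B) := by rw [hAB, Matrix.mul_one]
    _ = B * (ρ γ⁻¹ * A) * B := by simp only [Matrix.mul_assoc]
    _ = B * (A * ρ' γ⁻¹) * B := by rw [hA]
    _ = (B * A) * ρ' γ⁻¹ * B := by simp only [Matrix.mul_assoc]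
    _ = ρ' γ⁻¹ * B := by rw [hBA, Matrix.one_mul]

end

section

variable {E' : Type} [Field E'] [Algebra ℚ E'] {V W : Type} [AddCommGroup V] [Module ℚ V]
  [AddCommGroup W] [Module ℚ W] {r r' r'' : Type} [Fintype r] [Fintype r'] [Fintype r'']
  (b : V →ₗ[ℚ] W →ₗ[ℚ] ℝ) (τ : E' →+* ℂ)

theorem vpair_sum_left {κ : Type} (s : Finset κ) (c : κ → E') (v : κ → r → E' ⊗[ℚ] V)
    (w : r → E' ⊗[ℚ] W) :
    vpair b τ (∑ i ∈ s, c i • v i) w = ∑ i ∈ s, τ (c i) * vpair b τ (v i) w := by
  simp only [vpair, Finset.sum_apply, Pi.smul_apply, map_sum, LinearMap.sum_apply,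
    pairing_smul_left, Finset.mul_sum]
  exact Finset.sum_comm

theorem vpair_sum_right {κ : Type} (s : Finset κ) (c : κ → E') (v : r → E' ⊗[ℚ] V)
    (w : κ → r → E' ⊗[ℚ] W) :
    vpair b τ v (∑ i ∈ s, c i • w i) = ∑ i ∈ s, τ (c i) * vpair b τ v (w i) := by
  simp only [vpair, Finset.sum_apply, Pi.smul_apply, map_sum,
    pairing_smul_right, Finset.mul_sum]
  exact Finset.sum_comm

theorem vpair_elim (v : r → E' ⊗[ℚ] V) (v' : r' → E' ⊗[ℚ] V) (w : r → E' ⊗[ℚ] W)
    (w' : r' → E' ⊗[ℚ] W) :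
    vpair b τ (Sum.elim v v') (Sum.elim w w') = vpair b τ v w + vpair b τ v' w' := by
  simp only [vpair, Fintype.sum_sum_type, Sum.elim_inl, Sum.elim_inr]

theorem vpair_app [DecidableEq r'] {A : Matrix r r' E'} {B : Matrix r' r E'} (hBA : B * A = 1)
    (v : r' → E' ⊗[ℚ] V) (w : r' → E' ⊗[ℚ] W) :
    vpair b τ (app A v) (app Bᵀ w) = vpair b τ v w := by
  have h1 : ∀ i, pairing b τ (app A v i) (app Bᵀ w i) =
      ∑ j, ∑ k, τ (B k i * A i j) * pairing b τ (v j) (w k) := by
    intro i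
    simp only [app_apply, map_sum, LinearMap.sum_apply, pairing_smul_right, pairing_smul_left,
      transpose_apply, map_mul]
    rw [Finset.sum_comm]
    refine Finset.sum_congr rfl fun j _ => Finset.sum_congr rfl fun k _ => ?_
    ring
  unfold vpair
  simp only [h1]
  rw [Finset.sum_comm]
  refine Finset.sum_congr rfl fun j _ => ?_
  rw [Finset.sum_comm]
  have h2 : ∀ k, ∑ i, τ (B k i * A i j) * pairing b τ (v j) (w k) =
      τ ((1 : Matrix r' r' E') k j) * pairing b τ (v j) (w k) := by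
    intro k
    rw [← Finset.sum_mul, ← map_sum, ← hBA, Matrix.mul_apply]
  simp only [h2]
  rw [Finset.sum_eq_single j]
  · rw [Matrix.one_apply_eq, map_one, one_mul]
  · intro k _ hk
    rw [Matrix.one_apply_ne hk, map_zero, zero_mul]
  · intro h
    exact absurd (Finset.mem_univ _) h

/-- change of the vectors -/
theorem gram_change {ι κ : Type} [Fintype ι] [Fintype κ] {v v' : ι → r → E' ⊗[ℚ] V}
    {w w' : κ → r → E' ⊗[ℚ] W} (P : Matrix ι ι E') (Q : Matrix κ κ E')
    (hP : ∀ i, v' i = ∑ j, P i j • v j) (hQ : ∀ i, w' i = ∑ j, Q i j • w j) :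
    gram b τ v' w' = P.map τ * gram b τ v w * (Q.map τ)ᵀ := by
  ext i k
  rw [gram, Matrix.of_apply, hP, hQ, vpair_sum_left]
  simp only [vpair_sum_right, Matrix.mul_apply, Matrix.transpose_apply, Matrix.map_apply,
    Finset.sum_mul, Finset.mul_sum, gram, Matrix.of_apply]
  rw [Finset.sum_comm]
  refine Finset.sum_congr rfl fun x _ => Finset.sum_congr rfl fun y _ => ?_
  ring

end

end Pool.Agent.Helper51K9.BK
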