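import Pool.Agent.Helper51K9.BK.Lin2

/-!
# Extension of the coefficients
-/

set_option autoImplicit false
set_option linter.unusedSectionVars false

namespace Pool.Agent.Helper51K9.BK

open Matrix TensorProduct Module

variable {E' : Type} [Field E'] [Algebra ℚ E'] (E'' : Type) [Field E''] [Algebra ℚ E'']
  [Algebra E' E''] [IsScalarTower ℚ E' E''] {V W : Type} [AddCommGroup V] [Module ℚ V]
  [AddCommGroup W] [Module ℚ W] {r : Type} [Fintype r] [DecidableEq r]

/-- extension of the coefficients -/
noncomputable def up : E' ⊗[ℚ] V →ₗ[ℚ] E'' ⊗[ℚ] V :=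
  LinearMap.rTensor V (IsScalarTower.toAlgHom ℚ E' E'').toLinearMap

theorem up_tmul (x : E') (v : V) : up E'' (x ⊗ₜ[ℚ] v) = algebraMap E' E'' x ⊗ₜ[ℚ] v := rfl

theorem up_smul (c : E') (z : E' ⊗[ℚ] V) : up E'' (c • z) = algebraMap E' E'' c • up E'' z := by
  induction z with
  | zero => simp
  | add x y hx hy => simp only [smul_add, map_add, hx, hy]
  | tmul x v =>
    rw [TensorProduct.smul_tmul', up_tmul, up_tmul, TensorProduct.smul_tmul', smul_eq_mul,
      smul_eq_mul, map_mul]

theorem up_comp (f : Module.End ℚ V) (z : E' ⊗[ℚ] V) :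
    up E'' (f.baseChange E' z) = f.baseChange E'' (up E'' z) := by
  induction z with
  | zero => simp
  | add x y hx hy => simp only [map_add, hx, hy]
  | tmul x v => rw [LinearMap.baseChange_tmul, up_tmul, up_tmul, LinearMap.baseChange_tmul]

theorem pairing_up (b : V →ₗ[ℚ] W →ₗ[ℚ] ℝ) (τ : E'' →+* ℂ) (x : E' ⊗[ℚ] V) (y : E' ⊗[ℚ] W) :
    pairing b τ (up E'' x) (up E'' y) = pairing b (τ.comp (algebraMap E' E'')) x y := by
  induction x with
  | zero => simp
  | add x x' h h' => simp only [map_add, LinearMap.add_apply, h, h']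
  | tmul e v =>
    induction y with
    | zero => simp
    | add y y' h h' => simp only [map_add, h, h']
    | tmul f w =>
      rw [up_tmul, up_tmul, pairing_tmul, pairing_tmul]
      rfl

variable {E''}

/-- a component -/
noncomputable def down (κ : E'' →ₗ[E'] E') : E'' ⊗[ℚ] V →ₗ[ℚ] E' ⊗[ℚ] V :=
  LinearMap.rTensor V (κ.restrictScalars ℚ)

theorem down_tmul (κ : E'' →ₗ[E'] E') (x : E'') (v : V) :
    down κ (x ⊗ₜ[ℚ] v) = κ x ⊗ₜ[ℚ] v := rfl

theorem down_smul (κ : E'' →ₗ[E'] E') (c : E') (z : E'' ⊗[ℚ] V) :
    down κ (algebraMap E' E'' c • z) = c • down κ z := by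
  induction z with
  | zero => simp
  | add x y hx hy => simp only [smul_add, map_add, hx, hy]
  | tmul x v =>
    rw [TensorProduct.smul_tmul', down_tmul, down_tmul, TensorProduct.smul_tmul', smul_eq_mul,
      ← Algebra.smul_def, map_smul]

theorem down_smul_up (κ : E'' →ₗ[E'] E') (c : E'') (z : E' ⊗[ℚ] V) :
    down κ (c • up E'' z) = κ c • z := by
  induction z with
  | zero => simp
  | add x y hx hy => simp only [smul_add, map_add, hx, hy]
  | tmul x v =>
    rw [up_tmul, TensorProduct.smul_tmul', down_tmul, TensorProduct.smul_tmul', smul_eq_mul,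
      mul_comm c, ← Algebra.smul_def, map_smul, smul_eq_mul, smul_eq_mul, mul_comm]

theorem down_comp (κ : E'' →ₗ[E'] E') (f : Module.End ℚ V) (z : E'' ⊗[ℚ] V) :
    down κ (f.baseChange E'' z) = f.baseChange E' (down κ z) := by
  induction z with
  | zero => simp
  | add x y hx hy => simp only [map_add, hx, hy]
  | tmul x v => rw [LinearMap.baseChange_tmul, down_tmul, down_tmul, LinearMap.baseChange_tmul]

theorem sum_up_down {κ : Type} [Fintype κ] (e : Basis κ E' E'') (z : E'' ⊗[ℚ] V) :
    ∑ k, e k • up E'' (down (e.coord k) z) = z := by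
  induction z with
  | zero => simp
  | add x y hx hy =>
    simp only [map_add, smul_add, Finset.sum_add_distrib, hx, hy]
  | tmul x v =>
    have h1 : ∀ k, e k • up E'' (down (e.coord k) (x ⊗ₜ[ℚ] v)) =
        (e.coord k x • e k) ⊗ₜ[ℚ] v := by
      intro k
      rw [down_tmul, up_tmul, TensorProduct.smul_tmul', smul_eq_mul, mul_comm, ← Algebra.smul_def]
    simp only [h1]
    rw [← TensorProduct.sum_tmul]
    congr 1
    exact e.sum_repr x

variable (E'')

variable {Γ : Type} [Group Γ] (a : Γ →* Module.End ℚ V) (ρ : Γ →* Matrix r r E')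

theorem up_mem {v : r → E' ⊗[ℚ] V} (hv : v ∈ invariants a ρ) :
    (fun i => up E'' (v i)) ∈ invariants a (TI.baseRep E'' ρ) := by
  rw [mem_invariants] at hv ⊢
  intro γ i
  rw [← hv γ i, map_sum]
  refine Finset.sum_congr rfl fun j _ => ?_
  rw [up_smul, up_comp]
  rfl

theorem down_mem (κ : E'' →ₗ[E'] E') {v : r → E'' ⊗[ℚ] V}
    (hv : v ∈ invariants a (TI.baseRep E'' ρ)) : (fun i => down κ (v i)) ∈ invariants a ρ := by
  rw [mem_invariants] at hv ⊢
  intro γ i
  rw [← hv γ i, map_sum]
  refine Finset.sum_congr rfl fun j _ => ?_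
  rw [← down_comp, ← down_smul]
  rfl

/-- a basis of the invariants after an extension of the coefficients -/
theorem exists_upBasis [FiniteDimensional E' E''] {ι : Type} (B : Basis ι E' (invariants a ρ)) :
    ∃ B' : Basis ι E'' (invariants a (TI.baseRep E'' ρ)), ∀ i k,
      (B' i : r → E'' ⊗[ℚ] V) k = up E'' ((B i : r → E' ⊗[ℚ] V) k) := by
  classical
  let v : ι → invariants a (TI.baseRep E'' ρ) := fun i => ⟨_, up_mem E'' a ρ (B i).2⟩
  let e := Module.finBasis E' E''
  have hli : LinearIndependent E'' v := by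
    rw [linearIndependent_iff'ₛ]
    intro s f g hg i hi
    refine e.ext_elem fun k => ?_
    have h2 : ∑ j ∈ s, e.coord k (f j) • B j = ∑ j ∈ s, e.coord k (g j) • B j := by
      apply Subtype.ext
      funext l
      have h3 := congrFun (congrArg Subtype.val hg) l
      have h4 := congrArg (down (e.coord k)) h3
      simp only [Submodule.coe_sum, Submodule.coe_smul, Finset.sum_apply, Pi.smul_apply,
        map_sum] at h4 ⊢
      rw [Finset.sum_congr rfl fun j _ => (down_smul_up (e.coord k) (f j)
        ((B j : r → E' ⊗[ℚ] V) l)).symm, Finset.sum_congr rfl fun j _ =>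
        (down_smul_up (e.coord k) (g j) ((B j : r → E' ⊗[ℚ] V) l)).symm]
      exact h4
    exact linearIndependent_iff'ₛ.1 B.linearIndependent s _ _ h2 i hi
  have hsp : ⊤ ≤ Submodule.span E'' (Set.range v) := by
    rintro x -
    have h1 : ∀ k, (⟨_, up_mem E'' a ρ (down_mem E'' a ρ (e.coord k) x.2)⟩ :
        invariants a (TI.baseRep E'' ρ)) ∈ Submodule.span E'' (Set.range v) := by
      intro k
      let y : invariants a ρ := ⟨_, down_mem E'' a ρ (e.coord k) x.2⟩
      have hy : ∀ y : invariants a ρ, y ∈ Submodule.span E' (Set.range B) →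
          (⟨_, up_mem E'' a ρ y.2⟩ : invariants a (TI.baseRep E'' ρ)) ∈
            Submodule.span E'' (Set.range v) := by
        intro y hy
        induction hy using Submodule.span_induction with
        | mem x hx =>
          obtain ⟨i, rfl⟩ := hx
          exact Submodule.subset_span ⟨i, rfl⟩
        | zero =>
          have h1 : (⟨_, up_mem E'' a ρ (0 : invariants a ρ).2⟩ :
              invariants a (TI.baseRep E'' ρ)) = 0 := by
            apply Subtype.ext
            funext l
            exact map_zero _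
          rw [h1]
          exact Submodule.zero_mem _
        | add x y _ _ hx hy =>
          have h1 : (⟨_, up_mem E'' a ρ (x + y).2⟩ : invariants a (TI.baseRep E'' ρ)) =
              ⟨_, up_mem E'' a ρ x.2⟩ + ⟨_, up_mem E'' a ρ y.2⟩ := by
            apply Subtype.ext
            funext l
            exact map_add _ _ _
          rw [h1]
          exact Submodule.add_mem _ hx hy
        | smul c x _ hx =>
          have h1 : (⟨_, up_mem E'' a ρ (c • x).2⟩ : invariants a (TI.baseRep E'' ρ)) =
              algebraMap E' E'' c • ⟨_, up_mem E'' a ρ x.2⟩ := by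
            apply Subtype.ext
            funext l
            exact up_smul E'' c _
          rw [h1]
          exact Submodule.smul_mem _ (algebraMap E' E'' c) hx
      exact hy y (by rw [B.span_eq]; trivial)
    have h2 : x = ∑ k, e k • (⟨_, up_mem E'' a ρ (down_mem E'' a ρ (e.coord k) x.2)⟩ :
        invariants a (TI.baseRep E'' ρ)) := by
      apply Subtype.ext
      funext l
      simp only [Submodule.coe_sum, Submodule.coe_smul, Finset.sum_apply, Pi.smul_apply]
      exact (sum_up_down e _).symm
    rw [h2]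
    exact Submodule.sum_mem _ fun k _ => Submodule.smul_mem _ _ (h1 k)
  exact ⟨Basis.mk hli hsp, fun i k => by rw [Basis.mk_apply]⟩

theorem contra_base : contragredient (TI.baseRep E'' ρ) = TI.baseRep E'' (contragredient ρ) := by
  ext1 γ
  change ((ρ γ⁻¹).map (algebraMap E' E''))ᵀ = ((ρ γ⁻¹)ᵀ).map (algebraMap E' E'')
  rw [transpose_map]

end Pool.Agent.Helper51K9.BK
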