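import Pool.Agent.Helper51K9.BK.Int
import Pool.Agent.Helper51K9.BK.Val
import Pool.Agent.Helper51K9.TI.Arith

/-!
# Twist invariance for the K_2 of a curve
-/

set_option autoImplicit false
set_option linter.unusedSectionVars false

namespace Pool.Agent.Helper51K9.BK

open Matrix Filter Topology NumberField IsDedekindDomain TensorProduct Module TI

variable {A : Type} [Field A] [CharZero A] [IsAlgClosed A] [Algebra.IsAlgebraic ℚ A]
  {k : IntermediateField ℚ A} {g : ℕ} {H H₁ : Type} [AddCommGroup H] [Module ℚ H]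
  [AddCommGroup H₁] [Module ℚ H₁] (C : Curve k g H H₁) [FiniteDimensional ℚ k]

section

variable {E' : Type} [Field E'] [NumberField E'] [Algebra ℚ E'] {r : Type} [Fintype r]
  [DecidableEq r] {ρ : k.fixingSubgroup →* Matrix r r E'}

/-- the formalism for the curve -/
noncomputable abbrev form : Formalism k.fixingSubgroup ℚ :=
  formalism C.toRealizations C.cycAct C.act C.regulator (g * finrank ℚ k)

theorem val_of {R : (E' →+* ℂ) → ℂ} (hL : HasL C.toRealizations ρ) (h : C.IsQuotient ρ R) :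
    (form C).Val E' r ρ R := by
  have := alg_of E'
  obtain ⟨L, hL, hz⟩ := hL
  obtain ⟨L', D, hL', hD, h1⟩ := h
  obtain ⟨v, u, h2⟩ := (isRegDet_iff C ρ _ D).1 hD
  refine ⟨_, inferInstance, inferInstance, Fintype.card_fin _, L, hL, hz, v, u, fun τ => ?_⟩
  obtain ⟨h3, c, h4, h5, h6⟩ := h1 τ
  rw [h2 τ] at h3 h6
  refine ⟨h3, c, h4, h5.congr' ?_, h6⟩
  filter_upwards [hL'.eventuallyEq _ hL τ 0] with s hs
  rw [hs]

theorem of_val {R : (E' →+* ℂ) → ℂ} (h : (form C).Val E' r ρ R) :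
    HasL C.toRealizations ρ ∧ C.IsQuotient ρ R := by
  obtain ⟨ι, _, _, hι, L, hL, hz, v, u, h1⟩ := h
  refine ⟨⟨L, hL, hz⟩, L, _, hL, (isRegDet_iff C ρ _ _).2
    ⟨v.reindex (Fintype.equivFinOfCardEq hι), u.reindex (Fintype.equivFinOfCardEq hι),
      fun _ => rfl⟩, fun τ => ?_⟩
  have h2 : gram C.regulator τ
      (fun i => ((v.reindex (Fintype.equivFinOfCardEq hι) i : invariants C.cycAct ρ) :
        r → E' ⊗[ℚ] C.cycles))
      (fun i => ((u.reindex (Fintype.equivFinOfCardEq hι) i :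
        invariants C.act (contragredient ρ)) : r → E' ⊗[ℚ] H)) =
      (gram C.regulator τ (fun i => (v i : r → E' ⊗[ℚ] C.cycles))
        (fun i => (u i : r → E' ⊗[ℚ] H))).submatrix
        (Fintype.equivFinOfCardEq hι).symm (Fintype.equivFinOfCardEq hι).symm := by
    ext i j
    simp only [gram, Matrix.of_apply, Matrix.submatrix_apply, Basis.reindex_apply]
  rw [h2, det_submatrix_equiv_self]
  exact h1 τ

theorem beilinson_iff (hL : HasL C.toRealizations ρ) : C.Beilinson ρ ↔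
    ∃ w, (form C).Val E' r ρ w ∧ Same w (fun _ => 1) := by
  constructor
  · rintro ⟨e, he, h⟩
    exact ⟨_, val_of C hL h, e, he, fun τ => (mul_one _).symm⟩
  · rintro ⟨w, hw, e, he, h⟩
    have h1 : w = fun τ => τ e := funext fun τ => by rw [h, mul_one]
    rw [h1] at hw
    exact ⟨e, he, (of_val C hw).2⟩

end

section

variable (Ω : IntermediateField ℚ A) [FiniteDimensional ℚ Ω] (hΩ : k ≤ Ω) [(gal k Ω).Normal]

include hΩ

theorem hyp (h : C.TwistInvariance Ω) : ∀ (E' : Type) [Field E'] [NumberField E'] [Algebra ℚ E']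
      (U : Subgroup k.fixingSubgroup), gal k Ω ≤ U →
      Group.IsNilpotent (U.map (QuotientGroup.mk' (gal k Ω))) →
      ∀ [Fintype (k.fixingSubgroup ⧸ U)] [DecidableEq (k.fixingSubgroup ⧸ U)]
      (ψ : U →* E'ˣ), (∀ γ : U, (γ : k.fixingSubgroup) ∈ gal k Ω → ψ γ = 1) → ∃ w w₁,
        (form C).Val E' _ (induced U ψ) w ∧
        (form C).Val E' _ (induced U (1 : U →* E'ˣ)) w₁ ∧ Same w w₁ := by
  intro E' _ _ _ U hU hnil _ _ ψ hψ
  obtain ⟨K, hkK, hKΩ, rfl⟩ := exists_field_of k Ω hΩ U hU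
  obtain ⟨h1, R, R₁, h2, h3, h4⟩ := h E' K hkK hKΩ hnil ψ
    (fun γ hγ => hψ γ (Subgroup.mem_subgroupOf.2 hγ))
  obtain ⟨h1', -⟩ := h E' K hkK hKΩ hnil 1 (fun γ hγ => rfl)
  exact ⟨_, _, val_of C h1 h2, val_of C h1' h3, h4⟩

theorem ex_all (h : C.TwistInvariance Ω) : ∀ (E' : Type) [Field E'] [NumberField E']
      [Algebra ℚ E'] (r : Type) [Fintype r] [DecidableEq r] (ρ : k.fixingSubgroup →* Matrix r r E'),
      (∀ γ ∈ gal k Ω, ρ γ = 1) → ∃ w, (form C).Val E' r ρ w := by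
  intro E' _ _ _ r _ _ ρ hρ
  have hfin : Finite (k.fixingSubgroup ⧸ gal k Ω) := finite_quot k Ω hΩ
  refine val_all (form C) (gal k Ω) ?_ ρ hρ
  intro F _ _ _ U hU hnil _ _ ψ hψ
  obtain ⟨w, w₁, h1, -⟩ := hyp C Ω hΩ h F U hU hnil ψ hψ
  exact ⟨w, h1⟩

theorem rels (h : C.TwistInvariance Ω) : ∀ (E' : Type) [Field E'] [NumberField E']
      [Algebra ℚ E'] (r : Type) [Fintype r] [DecidableEq r] (ρ : k.fixingSubgroup →* Matrix r r E'),
      (∀ γ ∈ gal k Ω, ρ γ = 1) → ∀ w w₁ : (E' →+* ℂ) → ℂ, (form C).Val E' r ρ w →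
      (form C).Val E' (Fin 1) 1 w₁ → Same w (fun τ => w₁ τ ^ Fintype.card r) := by
  intro E' _ _ _ r _ _ ρ hρ w w₁ hw hw₁
  have hfin : Finite (k.fixingSubgroup ⧸ gal k Ω) := finite_quot k Ω hΩ
  exact val_rel (form C) (gal k Ω) (fun F _ _ _ U hU hnil _ _ ψ hψ =>
    hyp C Ω hΩ h F U hU hnil ψ hψ) ρ hρ hw hw₁

theorem powers (h : C.TwistInvariance Ω) : C.Powers Ω := by
  intro E' _ _ _ r _ _ ρ hρ
  have hρ' : ∀ γ ∈ gal k Ω, ρ γ = 1 := fun γ hγ => hρ γ (Subgroup.mem_subgroupOf.1 hγ)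
  obtain ⟨w, hw⟩ := ex_all C Ω hΩ h E' r ρ hρ'
  obtain ⟨w₁, hw₁⟩ := ex_all C Ω hΩ h E' (Fin 1) 1 (fun _ _ => rfl)
  exact ⟨(of_val C hw).1, _, _, (of_val C hw).2, (of_val C hw₁).2,
    rels C Ω hΩ h E' r ρ hρ' w w₁ hw hw₁⟩

omit [FiniteDimensional ℚ Ω] hΩ in
theorem le_gal {K : IntermediateField ℚ A} (hKΩ : K ≤ Ω) : gal k Ω ≤ gal k K := by
  intro γ hγ
  rw [Subgroup.mem_subgroupOf] at hγ ⊢
  exact IntermediateField.fixingSubgroup_antitone hKΩ hγ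

omit [FiniteDimensional ℚ Ω] hΩ in
theorem twist_of_powers (h : C.Powers Ω) : C.TwistInvariance Ω := by
  intro E' _ _ _ K hkK hKΩ _ _ _ ψ hψ
  have hT : ∀ ψ : gal k K →* E'ˣ, (∀ γ : gal k K, ((γ : k.fixingSubgroup) : A ≃ₐ[ℚ] A) ∈
      Ω.fixingSubgroup → ψ γ = 1) → TrivialOn Ω (induced (gal k K) ψ) := fun ψ hψ γ hγ =>
    induced_trivial (gal k Ω) (gal k K) (le_gal Ω hKΩ) ψ
      (fun γ hγ => hψ γ (Subgroup.mem_subgroupOf.1 hγ)) γ (Subgroup.mem_subgroupOf.2 hγ)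
  obtain ⟨h1, R, R₁, h2, h3, h4⟩ := h E' _ (induced (gal k K) ψ) (hT ψ hψ)
  obtain ⟨k1, S, S₁, k2, k3, k4⟩ := h E' _ (induced (gal k K) (1 : gal k K →* E'ˣ))
    (hT 1 fun _ _ => rfl)
  have hL1 : HasL C.toRealizations (1 : k.fixingSubgroup →* Matrix (Fin 1) (Fin 1) E') :=
    (h E' (Fin 1) 1 (fun _ _ => rfl)).1
  have q := (form C).unique (val_of C hL1 h3) (val_of C hL1 k3)
  exact ⟨h1, R, S, h2, k2, (h4.trans (q.pow _)).trans k4.symm⟩

/-- **All twists.** -/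
theorem all_beilinson (h : C.TwistInvariance Ω) (hS : C.SomeBeilinson Ω) : ∀ (E' : Type) [Field E']
      [NumberField E'] [Algebra ℚ E'] (r : Type) [Fintype r] [DecidableEq r]
      (ρ : k.fixingSubgroup →* Matrix r r E'), TrivialOn Ω ρ → C.Beilinson ρ := by
  intro E' _ _ _ r _ _ ρ hρ
  have hρ' : ∀ γ ∈ gal k Ω, ρ γ = 1 := fun γ hγ => hρ γ (Subgroup.mem_subgroupOf.1 hγ)
  obtain ⟨w, hw⟩ := ex_all C Ω hΩ h E' r ρ hρ'
  rw [beilinson_iff C (of_val C hw).1]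
  have hfin : Finite (k.fixingSubgroup ⧸ gal k Ω) := finite_quot k Ω hΩ
  refine val_const (form C) (gal k Ω) (ex_all C Ω hΩ h) (rels C Ω hΩ h) ?_ ρ hρ'
  intro l hl
  obtain ⟨F, i1, i2, i3, K, i4, i5, ψ, hkK, hKΩ, hlK, hψ, h1⟩ := hS l hl
  have : FiniteDimensional ℚ K :=
    Module.Finite.of_injective (IntermediateField.inclusion hKΩ).toLinearMap
      (IntermediateField.inclusion hKΩ).injective
  have h2 : ∀ γ ∈ gal k Ω, induced (gal k K) ψ γ = 1 := fun γ hγ =>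
    induced_trivial (gal k Ω) (gal k K) (le_gal Ω hKΩ) ψ
      (fun γ hγ => hψ γ (Subgroup.mem_subgroupOf.1 hγ)) γ hγ
  obtain ⟨w', hw'⟩ := ex_all C Ω hΩ h F _ (induced (gal k K) ψ) h2
  refine ⟨F, i1, i2, i3, _, i4, i5, induced (gal k K) ψ, h2, ?_,
    (beilinson_iff C (of_val C hw').1).1 h1⟩
  rw [card_quot k K hkK]
  exact hlK

end

end Pool.Agent.Helper51K9.BK
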